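import Pool.Agent.Q280.ZU.Frame

/-!
# Failures of Zilber's conjecture on atypical subvarieties of tori: the maximal excess is superadditive
-/

set_option autoImplicit false

open MvPolynomial Module

namespace Pool.Agent.Q280.ZU

/-- The subvariety `X` (with the ideal `Q`) of `V` (with the ideal `P`) lies in an algebraic subgroup `H` with
`dim X ≥ dim V + dim H - n + c`. -/
def Atypical (c : ℕ) {n : ℕ} (P Q : Ideal (MvPolynomial (Fin n) ℂ)) : Prop :=
  IsSubvariety Q ∧ P ≤ Q ∧ ∃ Λ : Submodule ℤ (Fin n → ℤ), (∀ a ∈ Λ, ∀ x ∈ points Q, ∏ i, x i ^ a i = 1) ∧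
    ringKrullDim (MvPolynomial (Fin n) ℂ ⧸ P) + ((n - finrank ℤ Λ : ℕ) : WithBot ℕ∞) + (c : WithBot ℕ∞) ≤
      ringKrullDim (MvPolynomial (Fin n) ℂ ⧸ Q) + (n : WithBot ℕ∞)

/-- The atypical subvarieties of `V` with excess at least `c` do not lie in finitely many proper algebraic
subgroups. -/
structure Failure (c : ℕ) {n : ℕ} (P : Ideal (MvPolynomial (Fin n) ℂ)) : Prop where
  subvariety : IsSubvariety P
  uncovered : ∀ A : Finset (Fin n → ℤ), (∀ a ∈ A, a ≠ 0) →
    ∃ Q, Atypical c P Q ∧ ∀ a ∈ A, ∃ x ∈ points Q, ∏ i, x i ^ a i ≠ 1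

variable {n : ℕ}

/-- the subvarieties of `W` are not covered -/
def Good (c : ℕ) (P W : Ideal (MvPolynomial (Fin n) ℂ)) : Prop :=
  ∀ A : Finset (Fin n → ℤ), (∀ a ∈ A, a ≠ 0) →
    ∃ Q, W ≤ Q ∧ Atypical c P Q ∧ ∀ a ∈ A, ∃ x ∈ points Q, ∏ i, x i ^ a i ≠ 1

/-- a minimal subvariety which contains enough atypical subvarieties -/
theorem exists_minimal {c : ℕ} {P : Ideal (MvPolynomial (Fin n) ℂ)} (hP : Failure c P) :
    ∃ W, IsSubvariety W ∧ P ≤ W ∧ Good c P W ∧ ∀ g ∉ W, ∃ A : Finset (Fin n → ℤ), (∀ a ∈ A, a ≠ 0) ∧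
      ∀ Q, W ≤ Q → Atypical c P Q → g ∈ Q → ∃ a ∈ A, ∀ x ∈ points Q, ∏ i, x i ^ a i = 1 := by
  classical
  obtain ⟨W, ⟨h1, h2, h3⟩, h4⟩ := (wellFounded_gt (α := Ideal (MvPolynomial (Fin n) ℂ))).has_min
    {W | IsSubvariety W ∧ P ≤ W ∧ Good c P W} ⟨P, hP.subvariety, le_rfl, fun A hA => by
      obtain ⟨Q, h5, h6⟩ := hP.uncovered A hA
      exact ⟨Q, h5.2.1, h5, h6⟩⟩
  refine ⟨W, h1, h2, h3, fun g hg => ?_⟩
  have hfin := Ideal.finite_minimalPrimes_of_isNoetherianRing (MvPolynomial (Fin n) ℂ) (W ⊔ Ideal.span {g})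
  have h5 : ∀ U : Ideal (MvPolynomial (Fin n) ℂ), ∃ A : Finset (Fin n → ℤ), (∀ a ∈ A, a ≠ 0) ∧
      (U ∈ (W ⊔ Ideal.span {g}).minimalPrimes → IsSubvariety U → ∀ Q, U ≤ Q → Atypical c P Q →
        ∃ a ∈ A, ∀ x ∈ points Q, ∏ i, x i ^ a i = 1) := by
    intro U
    by_cases hU : U ∈ (W ⊔ Ideal.span {g}).minimalPrimes ∧ IsSubvariety U
    · obtain ⟨hU1, hU2⟩ := hU
      have h6 : W ⊔ Ideal.span {g} ≤ U := hU1.1.2
      have h7 : W < U := by
        refine lt_of_le_of_ne (le_sup_left.trans h6) ?_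
        rintro rfl
        exact hg (h6 (Ideal.mem_sup_right (Ideal.mem_span_singleton_self g)))
      have h8 : ¬ Good c P U := fun h => h4 U ⟨hU2, h2.trans h7.le, h⟩ h7
      unfold Good at h8
      push Not at h8
      obtain ⟨A, hA, h9⟩ := h8
      exact ⟨A, hA, fun _ _ Q hQ1 hQ2 => h9 Q hQ1 hQ2⟩
    · exact ⟨∅, by simp, fun h h' => absurd ⟨h, h'⟩ hU⟩
  choose A hA1 hA2 using h5
  refine ⟨hfin.toFinset.biUnion A, fun a ha => ?_, fun Q hQ1 hQ2 hQ3 => ?_⟩
  · obtain ⟨U, _, h6⟩ := Finset.mem_biUnion.mp ha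
    exact hA1 U a h6
  · have hprime := hQ2.1.1
    have h6 : W ⊔ Ideal.span {g} ≤ Q := sup_le hQ1 ((Ideal.span_singleton_le_iff_mem Q).mpr hQ3)
    obtain ⟨U, hU1, hU2⟩ := Ideal.exists_minimalPrimes_le h6
    have hU3 : IsSubvariety U := ⟨hU1.1.1, fun h => hQ2.1.2 (hU2 h)⟩
    obtain ⟨a, ha, h7⟩ := hA2 U hU1 hU3 Q hU2 hQ2
    exact ⟨a, Finset.mem_biUnion.mpr ⟨U, hfin.mem_toFinset.mpr hU1, ha⟩, h7⟩

theorem dim_anti {P Q : Ideal (MvPolynomial (Fin n) ℂ)} (h : P ≤ Q) :
    ringKrullDim (MvPolynomial (Fin n) ℂ ⧸ Q) ≤ ringKrullDim (MvPolynomial (Fin n) ℂ ⧸ P) :=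
  ringKrullDim_le_of_surjective (Ideal.Quotient.factor h) (Ideal.Quotient.factor_surjective h)

theorem points_anti {P Q : Ideal (MvPolynomial (Fin n) ℂ)} (h : P ≤ Q) : points Q ⊆ points P :=
  fun _ hx => ⟨hx.1, fun g hg => hx.2 g (h hg)⟩

/-- **Superadditivity.** Failures with excess `c_j` in the tori of dimension `m_j` give a failure with excess
`∑ c_j` in every torus of dimension at least `∑ m_j`. -/
theorem exists_failure {κ : Type} [Fintype κ] {m c : κ → ℕ} {P : ∀ j, Ideal (MvPolynomial (Fin (m j)) ℂ)}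
    (hP : ∀ j, Failure (c j) (P j)) {N : ℕ} (hN : ∑ j, m j ≤ N) :
    ∃ P' : Ideal (MvPolynomial (Fin N) ℂ), Failure (∑ j, c j) P' ∧
      ringKrullDim (MvPolynomial (Fin N) ℂ ⧸ P') ≤ ∑ j, ringKrullDim (MvPolynomial (Fin (m j)) ℂ ⧸ P j) := by
  classical
  choose W hsub hPW hgood hW using fun j => exists_minimal (hP j)
  have hV0 : ∀ j, ∀ v ∈ points (W j), ∀ i, v i ≠ 0 := fun j v hv => hv.1
  have hirrV := fun j => irr_points (hsub j)
  let v0 : ∀ j, points (W j) := fun j => ⟨(hirrV j).1.some, (hirrV j).1.some_mem⟩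
  have hprop : ∀ j, ∀ a : Fin (m j) → ℤ, (∀ x ∈ points (W j), mono x a = 1) → a = 0 := by
    intro j a ha
    by_contra hne
    obtain ⟨Q, h1, _, h3⟩ := hgood j {a} (by simpa using hne)
    obtain ⟨x, hx, h4⟩ := h3 a (Finset.mem_singleton_self a)
    exact h4 (ha x (points_anti h1 hx))
  obtain ⟨I, r, δ, e, hδ, hI, hpr, hlat⟩ := exists_frame (V := fun j => points (W j)) hV0 v0 (N := N) (by simpa using hN)
  let w : (∀ j, points (W j)) → Fin N → ℂ := fun y =>
    glue (fun i : I => (i : Σ j, Fin (m j))) δ e fun j => (y j : Fin (m j) → ℂ)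
  have hw0 : ∀ y s, w y s ≠ 0 := by
    intro y s
    show Sum.elim (fun i : I => (y (i : Σ j, Fin (m j)).1 : Fin (m _) → ℂ) (i : Σ j, Fin (m j)).2) δ (e s) ≠ 0
    rcases e s with p | i
    · exact hV0 _ _ (y _).2 _
    · exact hδ i
  have hirr : Irr (Set.range w) := irr_range hirrV w fun s y j => sep_glue _ _ _ s y j
  have hpts : ∀ y, w y ∈ points (vid (Set.range w)) := fun y => ⟨hw0 y, fun g hg => hg _ ⟨y, rfl⟩⟩
  have hsub' : IsSubvariety (vid (Set.range w)) := by
    refine ⟨hirr.prime, fun h => ?_⟩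
    have h1 := h (w v0) ⟨_, rfl⟩
    rw [map_prod] at h1
    simp only [eval_X] at h1
    exact Finset.prod_ne_zero_iff.mpr (fun s _ => hw0 _ s) h1
  -- dimensions
  choose dP hdP using fun j => exists_dim (hP j).subvariety
  choose dW hdW using fun j => exists_dim (hsub j)
  have hdWP : ∀ j, dW j ≤ dP j := fun j => by
    have := dim_anti (hPW j)
    rw [(hdW j).1, (hdP j).1] at this
    exact_mod_cast this
  have htr : Algebra.trdeg ℂ (MvPolynomial (Fin N) ℂ ⧸ vid (Set.range w)) ≤ (∑ j, dW j : ℕ) :=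
    trdeg_glue_le hirrV (fun j => by rw [vid_points (hsub j)]; exact (hdW j).2) _ _ _
  obtain ⟨d', hd1', hd2'⟩ := exists_dim hsub'
  have hdd : d' ≤ ∑ j, dP j := by
    rw [hd2'] at htr
    exact (by exact_mod_cast htr : d' ≤ ∑ j, dW j).trans (Finset.sum_le_sum fun j _ => hdWP j)
  refine ⟨vid (Set.range w), ⟨hsub', fun A hA => ?_⟩, by
    rw [hd1']
    simp only [fun j => (hdP j).1]
    exact_mod_cast hdd⟩
  -- the choice of the factors
  have hstep : ∀ J : Finset κ, ∃ Q : ∀ j, Ideal (MvPolynomial (Fin (m j)) ℂ),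
      (∀ j ∈ J, W j ≤ Q j ∧ Atypical (c j) (P j) (Q j)) ∧
      ∀ a ∈ A, ∃ y : ∀ j, points (W j), (∀ j ∈ J, (y j : Fin (m j) → ℂ) ∈ points (Q j)) ∧ mono (w y) a ≠ 1 := by
    intro J
    induction J using Finset.induction_on with
    | empty =>
      refine ⟨fun j => ⊥, by simp, fun a ha => ?_⟩
      by_contra hcon
      push Not at hcon
      exact hA a ha (hpr a fun y => hcon y (by simp))
    | insert l J hl ih =>
      obtain ⟨Q, hQ1, hQ2⟩ := ih
      have h1 : ∀ a : Fin N → ℤ, ∃ B : Finset (Fin (m l) → ℤ), (∀ b ∈ B, b ≠ 0) ∧ (a ∈ A →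
          ∀ U, W l ≤ U → Atypical (c l) (P l) U → (∀ b ∈ B, ∃ x ∈ points U, ∏ i, x i ^ b i ≠ 1) →
          ∃ y : ∀ j, points (W j), (∀ j ∈ J, (y j : Fin (m j) → ℂ) ∈ points (Q j)) ∧
            (y l : Fin (m l) → ℂ) ∈ points U ∧ mono (w y) a ≠ 1) := by
        intro a
        by_cases ha : a ∈ A
        · obtain ⟨y, hy1, hy2⟩ := hQ2 a ha
          obtain ⟨C, b, hCb⟩ := mono_glue_update (V := fun j => points (W j)) (δ := δ) e y l a
          have hg : relP C b ∉ W l := by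
            intro h
            have h2 := (y l).2.2 _ h
            rw [eval_relP (hV0 l _ (y l).2)] at h2
            have h3 := hCb (y l)
            rw [Function.update_eq_self, h2] at h3
            exact hy2 h3
          obtain ⟨B, hB1, hB2⟩ := hW l _ hg
          refine ⟨B, hB1, fun _ U hU1 hU2 hU3 => ?_⟩
          have h2 : relP C b ∉ U := by
            intro h
            obtain ⟨b', hb', h3⟩ := hB2 U hU1 hU2 h
            obtain ⟨x, hx, h4⟩ := hU3 b' hb'
            exact h4 (h3 x hx)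
          rw [← vid_points hU2.1, mem_vid] at h2
          push Not at h2
          obtain ⟨v, hv, h3⟩ := h2
          rw [Ne, eval_relP hv.1] at h3
          refine ⟨Function.update y l ⟨v, points_anti hU1 hv⟩, fun j hj => ?_, ?_, fun h => ?_⟩
          · have hjl : j ≠ l := fun h => hl (h ▸ hj)
            rw [Function.update_of_ne hjl]
            exact hy1 j hj
          · rw [Function.update_self]
            exact hv
          · exact h3 ((hCb ⟨v, points_anti hU1 hv⟩).symm.trans h)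
        · exact ⟨∅, by simp, fun h => absurd h ha⟩
      choose B hB1 hB2 using h1
      obtain ⟨U, hU1, hU2, hU3⟩ := hgood l (A.biUnion B) fun b hb => by
        obtain ⟨a, _, h2⟩ := Finset.mem_biUnion.mp hb
        exact hB1 a b h2
      refine ⟨Function.update Q l U, fun j hj => ?_, fun a ha => ?_⟩
      · by_cases hjl : j = l
        · subst hjl
          rw [Function.update_self]
          exact ⟨hU1, hU2⟩
        · rw [Function.update_of_ne hjl]
          exact hQ1 j ((Finset.mem_insert.mp hj).resolve_left hjl)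
      · obtain ⟨y, h2, h3, h4⟩ := hB2 a ha U hU1 hU2 fun b hb => hU3 b (Finset.mem_biUnion.mpr ⟨a, ha, hb⟩)
        refine ⟨y, fun j hj => ?_, h4⟩
        by_cases hjl : j = l
        · subst hjl
          rw [Function.update_self]
          exact h3
        · rw [Function.update_of_ne hjl]
          exact h2 j ((Finset.mem_insert.mp hj).resolve_left hjl)
  obtain ⟨Q, hQ1, hQ2⟩ := hstep Finset.univ
  have hQW : ∀ j, W j ≤ Q j := fun j => (hQ1 j (Finset.mem_univ j)).1
  have hQA : ∀ j, Atypical (c j) (P j) (Q j) := fun j => (hQ1 j (Finset.mem_univ j)).2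
  have hirrQ := fun j => irr_points (hQA j).1
  let i' : (∀ j, points (Q j)) → ∀ j, points (W j) := fun y j => ⟨y j, points_anti (hQW j) (y j).2⟩
  let x : (∀ j, points (Q j)) → Fin N → ℂ := fun y =>
    glue (fun i : I => (i : Σ j, Fin (m j))) δ e fun j => (y j : Fin (m j) → ℂ)
  have hx : ∀ y, x y = w (i' y) := fun y => rfl
  have hirrX : Irr (Set.range x) := irr_range hirrQ x fun s y j => sep_glue _ _ _ s y j
  have hptsX : ∀ y, x y ∈ points (vid (Set.range x)) := fun y => ⟨hw0 (i' y), fun g hg => hg _ ⟨y, rfl⟩⟩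
  have hsubX : IsSubvariety (vid (Set.range x)) := by
    refine ⟨hirrX.prime, fun h => ?_⟩
    obtain ⟨_, y, rfl⟩ := hirrX.1
    have h1 := h (x y) ⟨_, rfl⟩
    rw [map_prod] at h1
    simp only [eval_X] at h1
    exact Finset.prod_ne_zero_iff.mpr (fun s _ => hw0 (i' y) s) h1
  refine ⟨vid (Set.range x), ⟨hsubX, fun f hf => ?_, ?_⟩, fun a ha => ?_⟩
  · rintro _ ⟨y, rfl⟩
    exact hf _ ⟨i' y, rfl⟩
  · choose Λ hΛ1 hΛ2 using fun j => (hQA j).2.2
    obtain ⟨Λ', h1, h2⟩ := hlat Λ fun j a ha hac => by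
      obtain ⟨z, hz⟩ := (hirrQ j).1
      exact hprop j a fun v hv => (hac v hv z (points_anti (hQW j) hz)).trans (hΛ1 j a ha z hz)
    refine ⟨Λ', fun a ha => ?_, ?_⟩
    · obtain ⟨g, hg1, hg2⟩ := h2 a ha
      have h3 : relP 1 a ∈ vid (Set.range x) := by
        rintro _ ⟨y, rfl⟩
        rw [eval_relP (hptsX y).1, one_mul]
        exact (hg2 (i' y)).trans (Finset.prod_eq_one fun j _ => hΛ1 j _ (hg1 j) _ (y j).2)
      intro z hz
      have h4 := hz.2 _ h3
      rw [eval_relP hz.1, one_mul] at h4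
      exact h4
    · choose dQ hdQ using fun j => exists_dim (hQA j).1
      obtain ⟨d'', hd1'', hd2''⟩ := exists_dim hsubX
      have h3 : ∑ j, dQ j ≤ d'' := by
        have h4 := le_trdeg_prod hirrQ (d := dQ) fun j => by rw [vid_points (hQA j).1]; exact (hdQ j).2
        have hW' : Irr (Set.range fun y : ∀ j, points (Q j) => pr fun j => (y j : Fin (m j) → ℂ)) :=
          irr_range hirrQ (fun y => pr fun j => (y j : Fin (m j) → ℂ)) fun s y j => sep_at s y j
        have h5 := le_trdeg_glue (I := I) hW' (by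
          rintro _ ⟨y, rfl⟩ p
          exact (y p.1).2.1 p.2) (fun i hi => by
            obtain ⟨a, h6, h7, h8⟩ := hI i hi
            exact ⟨a, by
              rintro _ ⟨y, rfl⟩
              exact h6 (i' y), h7, h8⟩) δ e
        have h6 : (fun (z : (Σ j, Fin (m j)) → ℂ) s => Sum.elim (fun i : I => z i) δ (e s)) ''
            (Set.range fun y : ∀ j, points (Q j) => pr fun j => (y j : Fin (m j) → ℂ)) = Set.range x := by
          rw [← Set.range_comp]
          rfl
        rw [h6, hd2''] at h5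
        exact_mod_cast h4.trans h5
      have h4 : ∀ j, dP j + c j ≤ dQ j + finrank ℤ (Λ j) := by
        intro j
        have h5 := hΛ2 j
        rw [(hdP j).1, (hdQ j).1] at h5
        have h6 : dP j + (m j - finrank ℤ (Λ j)) + c j ≤ dQ j + m j := by exact_mod_cast h5
        have h7 := finrank_le_fin (Λ j)
        omega
      have h5 : ∑ j, dP j + ∑ j, c j ≤ ∑ j, dQ j + finrank ℤ Λ' := by
        refine le_trans ?_ (Nat.add_le_add_left h1 _)
        rw [← Finset.sum_add_distrib, ← Finset.sum_add_distrib]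
        exact Finset.sum_le_sum fun j _ => h4 j
      have h6 := finrank_le_fin Λ'
      rw [hd1', hd1'']
      have h7 : d' + (N - finrank ℤ Λ') + ∑ j, c j ≤ d'' + N := by omega
      exact_mod_cast h7
  · obtain ⟨y, hy1, hy2⟩ := hQ2 a ha
    exact ⟨x fun j => ⟨y j, hy1 j (Finset.mem_univ j)⟩, hptsX _, hy2⟩

end Pool.Agent.Q280.ZU
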