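import Pool.Agent.Q280.ZU.Sep

/-!
# Polynomial functions on products of irreducible sets
-/

set_option autoImplicit false

open MvPolynomial

namespace Pool.Agent.Q280.ZU

/-- irreducible sets: two polynomials which do not vanish on the set do not vanish at a common point -/
def Irr {τ : Type} (V : Set (τ → ℂ)) : Prop :=
  V.Nonempty ∧ ∀ f g : MvPolynomial τ ℂ, (∃ v ∈ V, eval v f ≠ 0) → (∃ v ∈ V, eval v g ≠ 0) →
    ∃ v ∈ V, eval v f ≠ 0 ∧ eval v g ≠ 0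

/-- the ideal of the polynomials which vanish on a set -/
def vid {σ : Type} (W : Set (σ → ℂ)) : Ideal (MvPolynomial σ ℂ) where
  carrier := {f | ∀ x ∈ W, eval x f = 0}
  add_mem' := fun {f g} hf hg x hx => by rw [map_add, hf x hx, hg x hx, add_zero]
  zero_mem' := fun x _ => map_zero _
  smul_mem' := fun c f hf x hx => by rw [smul_eq_mul, map_mul, hf x hx, mul_zero]

theorem mem_vid {σ : Type} {W : Set (σ → ℂ)} {f : MvPolynomial σ ℂ} : f ∈ vid W ↔ ∀ x ∈ W, eval x f = 0 :=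
  Iff.rfl

/-- polynomial functions on a set -/
def PolyFun {τ : Type} (V : Set (τ → ℂ)) : Set (V → ℂ) := {f | ∃ G : MvPolynomial τ ℂ, ∀ v : V, f v = eval v.1 G}

theorem Irr.common {τ : Type} {V : Set (τ → ℂ)} (hV : Irr V) : ∀ f ∈ PolyFun V, ∀ g ∈ PolyFun V,
    (∃ v, f v ≠ 0) → (∃ v, g v ≠ 0) → ∃ v, f v ≠ 0 ∧ g v ≠ 0 := by
  rintro f ⟨F, hF⟩ g ⟨G, hG⟩ ⟨v, hv⟩ ⟨u, hu⟩
  rw [hF] at hv
  rw [hG] at hu
  obtain ⟨x, hx, h1, h2⟩ := hV.2 F G ⟨v, v.2, hv⟩ ⟨u, u.2, hu⟩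
  exact ⟨⟨x, hx⟩, by rwa [hF], by rwa [hG]⟩

variable {σ κ : Type} {τ : κ → Type} {V : ∀ j, Set (τ j → ℂ)} [DecidableEq κ]

theorem sep_eval (w : (∀ j, V j) → σ → ℂ)
    (hw : ∀ s y j, (fun v => w (Function.update y j v) s) ∈ PolyFun (V j)) (F : MvPolynomial σ ℂ)
    (y : ∀ j, V j) (j : κ) : (fun v => eval (w (Function.update y j v)) F) ∈ PolyFun (V j) := by
  induction F using MvPolynomial.induction_on with
  | C c => exact ⟨C c, fun v => by simp only [eval_C]⟩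
  | add F G hF hG =>
    obtain ⟨F', hF⟩ := hF
    obtain ⟨G', hG⟩ := hG
    refine ⟨F' + G', fun v => ?_⟩
    have h1 := hF v
    have h2 := hG v
    simp only at h1 h2
    simp only [map_add, h1, h2]
  | mul_X F s hF =>
    obtain ⟨F', hF⟩ := hF
    obtain ⟨G', hG⟩ := hw s y j
    refine ⟨F' * G', fun v => ?_⟩
    have h1 := hF v
    have h2 := hG v
    simp only at h1 h2
    simp only [map_mul, eval_X, h1, h2]

theorem irr_range_aux [Fintype κ] (hV : ∀ j, Irr (V j)) (w : (∀ j, V j) → σ → ℂ)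
    (hw : ∀ s y j, (fun v => w (Function.update y j v) s) ∈ PolyFun (V j)) (F G : MvPolynomial σ ℂ)
    (h1 : ∃ y, eval (w y) F ≠ 0) (h2 : ∃ y, eval (w y) G ≠ 0) : ∃ y, eval (w y) F ≠ 0 ∧ eval (w y) G ≠ 0 := by
  obtain ⟨y, hy⟩ := h1
  obtain ⟨z, hz⟩ := h2
  exact exists_common (fun j => PolyFun (V j)) (fun j => (hV j).common)
    (fun y => eval (w y) F) (fun y => eval (w y) G) (sep_eval w hw F) (sep_eval w hw G) y z hy hz

theorem irr_range [Fintype κ] (hV : ∀ j, Irr (V j)) (w : (∀ j, V j) → σ → ℂ)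
    (hw : ∀ s y j, (fun v => w (Function.update y j v) s) ∈ PolyFun (V j)) : Irr (Set.range w) := by
  refine ⟨⟨w fun j => ⟨(hV j).1.some, (hV j).1.some_mem⟩, _, rfl⟩, ?_⟩
  rintro F G ⟨_, ⟨y, rfl⟩, hy⟩ ⟨_, ⟨z, rfl⟩, hz⟩
  obtain ⟨u, h3, h4⟩ := irr_range_aux hV w hw F G ⟨y, hy⟩ ⟨z, hz⟩
  exact ⟨w u, ⟨u, rfl⟩, h3, h4⟩

theorem Irr.prime {τ : Type} {V : Set (τ → ℂ)} (hV : Irr V) : (vid V).IsPrime := by
  obtain ⟨⟨v0, hv0⟩, hV⟩ := hV
  refine ⟨fun h => ?_, fun {F G} h => ?_⟩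
  · rw [Ideal.eq_top_iff_one, mem_vid] at h
    have := h v0 hv0
    rw [map_one] at this
    exact one_ne_zero this
  · by_contra hcon
    push Not at hcon
    obtain ⟨h1, h2⟩ := hcon
    rw [mem_vid] at h1 h2
    push Not at h1 h2
    obtain ⟨x, hx, h3, h4⟩ := hV F G h1 h2
    have h5 := h x hx
    rw [map_mul] at h5
    exact mul_ne_zero h3 h4 h5

/-- coordinates of the factors, and constants -/
def glue {ι ρ : Type} (loc : ι → Σ j, τ j) (c : ρ → ℂ) (e : σ → ι ⊕ ρ) (y : ∀ j, τ j → ℂ) : σ → ℂ :=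
  fun s => Sum.elim (fun p : ι => y (loc p).1 (loc p).2) c (e s)

theorem sep_at (q : Σ j, τ j) (y : ∀ j, V j) (j : κ) :
    (fun v => ((Function.update y j v q.1 : V q.1) : τ q.1 → ℂ) q.2) ∈ PolyFun (V j) := by
  obtain ⟨l, i⟩ := q
  by_cases hl : l = j
  · subst hl
    exact ⟨X i, fun v => by simp only [Function.update_self, eval_X]⟩
  · exact ⟨C ((y l : τ l → ℂ) i), fun v => by simp only [Function.update_of_ne hl, eval_C]⟩

theorem sep_glue {ι ρ : Type} (loc : ι → Σ j, τ j) (c : ρ → ℂ) (e : σ → ι ⊕ ρ) (s : σ) (y : ∀ j, V j) (j : κ) :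
    (fun v => glue loc c e (fun l => ((Function.update y j v l : V l) : τ l → ℂ)) s) ∈ PolyFun (V j) := by
  rcases h : e s with p | t
  · obtain ⟨G, hG⟩ := sep_at (loc p) y j
    refine ⟨G, fun v => ?_⟩
    rw [← hG v]
    simp only [glue, h, Sum.elim_inl]
  · refine ⟨C (c t), fun v => ?_⟩
    simp only [glue, h, Sum.elim_inr, eval_C]

end Pool.Agent.Q280.ZU
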