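import Pool.Agent.Helper834.EC.Dim1
import Pool.Agent.Q280.ZU.Poly

/-!
# The dimension of products of varieties, upper bound
-/

set_option autoImplicit false

open MvPolynomial Algebra

namespace Pool.Agent.Q280.ZU

/-- the product has dimension at most the sum of the dimensions -/
theorem trdeg_product_le {κ : Type} [Fintype κ] {τ : κ → Type} (P : ∀ j, Ideal (MvPolynomial (τ j) ℂ))
    (hP : ∀ j, (P j).IsPrime) (Q : Ideal (MvPolynomial (Σ j, τ j) ℂ)) [Q.IsPrime]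
    (h : ∀ j : κ, Q.comap (rename (Sigma.mk j) :
      MvPolynomial (τ j) ℂ →ₐ[ℂ] MvPolynomial (Σ j, τ j) ℂ) = P j) {d : κ → ℕ}
    (hd : ∀ j, trdeg ℂ (MvPolynomial (τ j) ℂ ⧸ P j) = d j) :
    trdeg ℂ (MvPolynomial (Σ j, τ j) ℂ ⧸ Q) ≤ (∑ j, d j : ℕ) := by
  classical
  let φ : ∀ j : κ, (MvPolynomial (τ j) ℂ ⧸ P j) →ₐ[ℂ] (MvPolynomial (Σ j, τ j) ℂ ⧸ Q) :=
    fun j => Ideal.quotientMapₐ Q (rename (Sigma.mk j)) (h j).ge
  have hφ : ∀ j, Function.Injective (φ j) := by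
    intro j
    rw [injective_iff_map_eq_zero]
    intro x hx
    obtain ⟨F, rfl⟩ := Ideal.Quotient.mk_surjective x
    have h1 : Ideal.Quotient.mk Q (rename (Sigma.mk j) F) = 0 := hx
    rw [Ideal.Quotient.eq_zero_iff_mem] at h1 ⊢
    rw [← h j]
    exact h1
  have hex : ∀ j, ∃ B : Set (MvPolynomial (τ j) ℂ ⧸ P j), IsTranscendenceBasis ℂ ((↑) : B → MvPolynomial (τ j) ℂ ⧸ P j) :=
    fun j => exists_isTranscendenceBasis ℂ (MvPolynomial (τ j) ℂ ⧸ P j)
  choose B hB using hex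
  have hBd : ∀ j, Cardinal.mk (B j) = d j := fun j => by rw [← hd, (hB j).cardinalMk_eq_trdeg]
  let S : Set (MvPolynomial (Σ j, τ j) ℂ ⧸ Q) := ⋃ j, φ j '' B j
  have halg : ∀ j a, IsAlgebraic (adjoin ℂ S) (φ j a) := by
    intro j a
    have h1 : IsAlgebraic (adjoin ℂ (Set.range ((↑) : B j → MvPolynomial (τ j) ℂ ⧸ P j))) a :=
      (hB j).isAlgebraic.isAlgebraic a
    rw [Subtype.range_coe] at h1
    have h2 : ∀ x ∈ adjoin ℂ (B j), φ j x ∈ adjoin ℂ S := fun x hx => by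
      have h3 : φ j x ∈ (adjoin ℂ (B j)).map (φ j) := ⟨x, hx, rfl⟩
      rw [AlgHom.map_adjoin] at h3
      exact adjoin_mono (Set.subset_iUnion (fun j => φ j '' B j) j) h3
    refine h1.ringHom_of_comp_eq
      (((φ j).comp (adjoin ℂ (B j)).val).codRestrict (adjoin ℂ S) fun x => h2 x.1 x.2).toRingHom
      (φ j).toRingHom ?_ ?_
    · intro x y hxy
      exact Subtype.ext (hφ j (congrArg Subtype.val hxy))
    · ext x
      rfl
  have hA : Algebra.IsAlgebraic (adjoin ℂ S) (MvPolynomial (Σ j, τ j) ℂ ⧸ Q) := by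
    refine ⟨fun r => ?_⟩
    obtain ⟨F, rfl⟩ := Ideal.Quotient.mk_surjective r
    induction F using MvPolynomial.induction_on with
    | C c => exact isAlgebraic_algebraMap (⟨_, (adjoin ℂ S).algebraMap_mem c⟩ : adjoin ℂ S)
    | add F G hF hG =>
      rw [map_add]
      exact hF.add hG
    | mul_X F p hF =>
      rw [map_mul]
      refine hF.mul ?_
      have h1 : Ideal.Quotient.mk Q (X p) = φ p.1 (Ideal.Quotient.mk (P p.1) (X p.2)) := by
        have h2 : φ p.1 (Ideal.Quotient.mk (P p.1) (X p.2)) =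
          Ideal.Quotient.mk Q (rename (Sigma.mk p.1) (X p.2)) := rfl
        rw [h2, rename_X]
      rw [h1]
      exact halg _ _
  refine (Algebra.IsAlgebraic.trdeg_le_cardinalMk ℂ S).trans ?_
  refine (Cardinal.mk_iUnion_le_sum_mk).trans ?_
  refine (Cardinal.sum_le_sum _ (fun j => (d j : Cardinal)) fun j =>
    (Cardinal.mk_image_le).trans (hBd j).le).trans ?_
  have h1 : (Cardinal.sum fun j => (d j : Cardinal)) = Cardinal.mk (Σ j, Fin (d j)) := by
    rw [Cardinal.mk_sigma]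
    simp
  rw [h1, Cardinal.mk_fintype, Fintype.card_sigma]
  simp

end Pool.Agent.Q280.ZU
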