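import Pool.Agent.Q280.ZU.Lat
import Pool.Agent.Q280.ZU.Dim

/-!
# Products of subvarieties of tori, moved to a torus of given dimension
-/

set_option autoImplicit false

open MvPolynomial Module

namespace Pool.Agent.Q280.ZU

variable {κ : Type} [Fintype κ] [DecidableEq κ] {τ : κ → Type} [∀ j, Fintype (τ j)] [∀ j, DecidableEq (τ j)]

/-- the point of the product -/
def pr (y : ∀ j, τ j → ℂ) : (Σ j, τ j) → ℂ := fun p => y p.1 p.2

omit [DecidableEq κ] [∀ j, DecidableEq (τ j)] in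
theorem mono_pr (y : ∀ j, τ j → ℂ) (a : (Σ j, τ j) → ℤ) : mono (pr y) a = ∏ j, mono (y j) fun i => a ⟨j, i⟩ := by
  unfold mono pr
  rw [Fintype.prod_sigma]

/-- the value at a glued point -/
theorem mono_glue {σ ρ : Type} [Fintype σ] [Fintype ρ] {I : Finset (Σ j, τ j)} (δ : ρ → ℂ) (e : σ ≃ I ⊕ ρ)
    (y : ∀ j, τ j → ℂ) (a : σ → ℤ) :
    mono (glue (fun i : I => (i : Σ j, τ j)) δ e y) a =
      mono (pr y) (ext I fun i => a (e.symm (Sum.inl i))) * mono δ fun i => a (e.symm (Sum.inr i)) := by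
  have h1 : mono (glue (fun i : I => (i : Σ j, τ j)) δ e y) a =
      ∏ z, Sum.elim (fun i : I => pr y i) δ z ^ a (e.symm z) := by
    unfold mono glue
    rw [← Equiv.prod_comp e]
    exact Finset.prod_congr rfl fun s _ => by rw [e.symm_apply_apply]; rfl
  rw [h1, Fintype.prod_sum_type, mono_ext]
  rfl

/-- a character with value 1 on a product is constant on the factors -/
theorem mem_cst_of_prod {V : ∀ j, Set (τ j → ℂ)} (hV0 : ∀ j, ∀ v ∈ V j, ∀ i, v i ≠ 0) (v0 : ∀ j, V j)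
    {c : ∀ j, τ j → ℤ} {z : ℂ} (h : ∀ y : ∀ j, V j, ∏ j, mono (y j : τ j → ℂ) (c j) = z) (j : κ) :
    c j ∈ cst (V j) (hV0 j) := by
  intro v hv u hu
  have h4 := h (Function.update v0 j ⟨v, hv⟩)
  have h5 := h (Function.update v0 j ⟨u, hu⟩)
  rw [← Finset.mul_prod_erase _ _ (Finset.mem_univ j)] at h4 h5
  rw [← h5] at h4
  simp only [Function.update_self] at h4
  have h6 : ∀ z : V j, ∏ x ∈ Finset.univ.erase j, mono ((Function.update v0 j z x : V x) : τ x → ℂ) (c x) =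
      ∏ x ∈ Finset.univ.erase j, mono (v0 x : τ x → ℂ) (c x) := by
    intro z
    refine Finset.prod_congr rfl fun x hx => ?_
    rw [Function.update_of_ne (Finset.ne_of_mem_erase hx)]
  rw [h6, h6] at h4
  exact mul_right_cancel₀ (Finset.prod_ne_zero_iff.mpr fun x _ => mono_ne_zero (hV0 x _ (v0 x).2) _) h4

/-- the product of lattices -/
theorem exists_prod_lattice (Λ : ∀ j, Submodule ℤ (τ j → ℤ)) : ∃ Λ' : Submodule ℤ ((Σ j, τ j) → ℤ),
    ∑ j, finrank ℤ (Λ j) = finrank ℤ Λ' ∧ ∀ a ∈ Λ', ∀ j, (fun i => a ⟨j, i⟩) ∈ Λ j := by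
  let f : (∀ j, Λ j) →ₗ[ℤ] ((Σ j, τ j) → ℤ) :=
    { toFun := fun c p => (c p.1 : τ p.1 → ℤ) p.2
      map_add' := fun c d => rfl
      map_smul' := fun m c => rfl }
  have hf : Function.Injective f := by
    intro c d h
    funext j
    apply Subtype.ext
    funext i
    exact congrFun h ⟨j, i⟩
  refine ⟨LinearMap.range f, ?_, ?_⟩
  · rw [LinearMap.finrank_range_of_inj hf, Module.finrank_pi_fintype]
  · rintro _ ⟨c, rfl⟩ j
    exact (c j).2

/-- the upper bound for the dimension of the glued set -/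
theorem trdeg_glue_le {V : ∀ j, Set (τ j → ℂ)} (hirr : ∀ j, Irr (V j)) {d : κ → ℕ}
    (hd : ∀ j, Algebra.trdeg ℂ (MvPolynomial (τ j) ℂ ⧸ vid (V j)) = d j) {σ ι ρ : Type} (loc : ι → Σ j, τ j)
    (c : ρ → ℂ) (e : σ → ι ⊕ ρ) :
    Algebra.trdeg ℂ (MvPolynomial σ ℂ ⧸
      vid (Set.range fun y : ∀ j, V j => glue loc c e fun j => (y j : τ j → ℂ))) ≤ (∑ j, d j : ℕ) := by
  have hne : ∀ j, Nonempty (V j) := fun j => ⟨⟨(hirr j).1.some, (hirr j).1.some_mem⟩⟩
  let v0 : ∀ j, V j := fun j => (hne j).some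
  let Q : Ideal (MvPolynomial (Σ j, τ j) ℂ) := vid (Set.range fun y : ∀ j, V j => pr fun j => (y j : τ j → ℂ))
  have hQ : Q.IsPrime := (irr_range hirr (fun y => pr fun j => (y j : τ j → ℂ)) fun s y j => sep_at s y j).prime
  have h1 : ∀ j : κ, Q.comap (rename (Sigma.mk j) :
      MvPolynomial (τ j) ℂ →ₐ[ℂ] MvPolynomial (Σ j, τ j) ℂ) = vid (V j) := by
    intro j
    ext f
    rw [Ideal.mem_comap, mem_vid, mem_vid]
    constructor
    · intro h v hv
      have h2 := h _ ⟨Function.update v0 j ⟨v, hv⟩, rfl⟩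
      rw [eval_rename] at h2
      have h3 : (pr (fun l => ((Function.update v0 j ⟨v, hv⟩ l : V l) : τ l → ℂ))) ∘ Sigma.mk j = v := by
        funext i
        show ((Function.update v0 j ⟨v, hv⟩ j : V j) : τ j → ℂ) i = v i
        rw [Function.update_self]
      rwa [h3] at h2
    · rintro h _ ⟨y, rfl⟩
      rw [eval_rename]
      exact h (y j) (y j).2
  refine le_trans ?_ (trdeg_product_le (fun j => vid (V j)) (fun j => (hirr j).prime) Q h1 hd)
  let g : σ → MvPolynomial (Σ j, τ j) ℂ := fun s => Sum.elim (fun p : ι => X (loc p)) (fun z => C (c z)) (e s)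
  have hg : ∀ (F : MvPolynomial σ ℂ) (y : ∀ j, τ j → ℂ), eval (pr y) (aeval g F) = eval (glue loc c e y) F := by
    intro F y
    induction F using MvPolynomial.induction_on with
    | C c => simp
    | add F G hF hG => rw [map_add, map_add, map_add, hF, hG]
    | mul_X F s hF =>
      rw [map_mul, map_mul, map_mul, hF, aeval_X, eval_X]
      congr 1
      rcases h : e s with p | z
      · simp [g, glue, h, pr]
      · simp [g, glue, h]
  have h2 : vid (Set.range fun y : ∀ j, V j => glue loc c e fun j => (y j : τ j → ℂ)) = Q.comap (aeval g) := by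
    ext F
    rw [Ideal.mem_comap, mem_vid, mem_vid]
    constructor
    · rintro h _ ⟨y, rfl⟩
      rw [hg]
      exact h _ ⟨y, rfl⟩
    · rintro h _ ⟨y, rfl⟩
      have h3 := h _ ⟨y, rfl⟩
      rwa [hg] at h3
  refine trdeg_le_of_injective (Ideal.quotientMapₐ Q (aeval g) h2.le) ?_
  rw [injective_iff_map_eq_zero]
  intro x hx
  obtain ⟨F, rfl⟩ := Ideal.Quotient.mk_surjective x
  have h3 : Ideal.Quotient.mk Q (aeval g F) = 0 := hx
  rw [Ideal.Quotient.eq_zero_iff_mem] at h3 ⊢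
  rw [h2]
  exact h3

/-- **The moved product.** -/
theorem exists_product {V : ∀ j, Set (τ j → ℂ)} (hV0 : ∀ j, ∀ v ∈ V j, ∀ i, v i ≠ 0) (hirr : ∀ j, Irr (V j))
    {d : κ → ℕ} (hd : ∀ j, Algebra.trdeg ℂ (MvPolynomial (τ j) ℂ ⧸ vid (V j)) = d j) {N : ℕ}
    (hN : ∑ j, Fintype.card (τ j) ≤ N) : ∃ w : (∀ j, V j) → Fin N → ℂ,
      (∀ y s, w y s ≠ 0) ∧
      (∀ s y j, (fun v => w (Function.update y j v) s) ∈ PolyFun (V j)) ∧
      Algebra.trdeg ℂ (MvPolynomial (Fin N) ℂ ⧸ vid (Set.range w)) ≤ (∑ j, d j : ℕ) ∧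
      (∀ a, (∀ y, mono (w y) a = 1) → a = 0) ∧
      ∀ Λ : ∀ j, Submodule ℤ (τ j → ℤ), (∀ j, ∀ a ∈ Λ j, a ∈ cst (V j) (hV0 j) → a = 0) →
        ∃ Λ' : Submodule ℤ (Fin N → ℤ), ∑ j, finrank ℤ (Λ j) ≤ finrank ℤ Λ' ∧
          ∀ a ∈ Λ', ∃ c : ∀ j, τ j → ℤ, (∀ j, c j ∈ Λ j) ∧
            ∀ y, mono (w y) a = ∏ j, mono (y j : τ j → ℂ) (c j) := by
  have hne : ∀ j, Nonempty (V j) := fun j => ⟨⟨(hirr j).1.some, (hirr j).1.some_mem⟩⟩
  let v0 : ∀ j, V j := fun j => (hne j).some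
  let W : Set ((Σ j, τ j) → ℂ) := Set.range fun y : ∀ j, V j => pr fun j => (y j : τ j → ℂ)
  have hW0 : ∀ z ∈ W, ∀ p, z p ≠ 0 := by
    rintro _ ⟨y, rfl⟩ p
    exact hV0 p.1 _ (y p.1).2 p.2
  obtain ⟨I, hI1, hI2⟩ := exists_index (triv W hW0)
  have hIN : I.card ≤ N := by
    refine le_trans (Finset.card_le_univ I) ?_
    rwa [Fintype.card_sigma]
  have e : Fin N ≃ I ⊕ Fin (N - I.card) := by
    refine Fintype.equivOfCardEq ?_
    rw [Fintype.card_sum, Fintype.card_fin, Fintype.card_fin, Fintype.card_coe]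
    omega
  obtain ⟨δ, hδ0, hδ⟩ := exists_indep (pr fun j => (v0 j : τ j → ℂ)) (N - I.card)
  refine ⟨fun y => glue (fun i : I => (i : Σ j, τ j)) δ e fun j => (y j : τ j → ℂ), ?_, ?_, ?_, ?_, ?_⟩
  · intro y s
    show Sum.elim (fun i : I => (y (i : Σ j, τ j).1 : τ _ → ℂ) (i : Σ j, τ j).2) δ (e s) ≠ 0
    rcases e s with p | i
    · exact hV0 _ _ (y _).2 _
    · exact hδ0 i
  · exact fun s y j => sep_glue _ _ _ s y j
  · exact trdeg_glue_le hirr hd _ _ _
  · intro a ha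
    have h1 := ha v0
    rw [mono_glue] at h1
    have h2 := hδ _ _ h1
    have h3 : ext I (fun i => a (e.symm (Sum.inl i))) ∈ triv W hW0 := by
      rintro _ ⟨y, rfl⟩
      have h4 := ha y
      rwa [mono_glue, h2, mono_zero, mul_one] at h4
    have h4 := hI1 _ h3 fun i hi => ext_notMem _ hi
    funext s
    obtain ⟨z, rfl⟩ := e.symm.surjective s
    rcases z with i | i
    · have h5 := ext_mem (fun i => a (e.symm (Sum.inl i))) i
      rw [h4] at h5
      exact h5.symm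
    · exact congrFun h2 i
  · intro Λ hΛ
    obtain ⟨Λ1, h1, h2⟩ := exists_prod_lattice Λ
    obtain ⟨Λ2, h3, h4⟩ := exists_proj (Λ := Λ1) hI1 hI2 (by
      intro a ha haR
      have h3 : ∀ j, (fun i => a ⟨j, i⟩) = (0 : τ j → ℤ) := fun j =>
        hΛ j _ (h2 a ha j) (mem_cst_of_prod hV0 v0 (c := fun j i => a ⟨j, i⟩) (z := 1)
          (fun y => by rw [← mono_pr]; exact haR _ ⟨y, rfl⟩) j)
      funext p
      exact congrFun (h3 p.1) p.2)
    let g : (I → ℤ) →ₗ[ℤ] (Fin N → ℤ) :=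
      { toFun := fun m s => Sum.elim m (fun _ => 0) (e s)
        map_add' := fun m l => by
          funext s
          rcases h : e s with p | i <;> simp [h]
        map_smul' := fun m l => by
          funext s
          rcases h : e s with p | i <;> simp [h] }
    have hg : Function.Injective g := by
      intro m l h
      funext i
      have h5 := congrFun h (e.symm (Sum.inl i))
      simpa [g] using h5
    refine ⟨Λ2.map g, ?_, ?_⟩
    · rw [h1, ← (Submodule.equivMapOfInjective g hg Λ2).finrank_eq]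
      exact h3
    · rintro _ ⟨m, hm, rfl⟩
      obtain ⟨ρ, hρ, h5⟩ := h4 m hm
      refine ⟨fun j i => (ext I m + ρ) ⟨j, i⟩, fun j => h2 _ h5 j, fun y => ?_⟩
      rw [mono_glue, ← mono_pr, mono_add (hW0 _ ⟨y, rfl⟩), hρ _ ⟨y, rfl⟩, mul_one]
      have h6 : (fun i => g m (e.symm (Sum.inl i))) = m := by
        funext i
        simp [g]
      have h7 : (fun i => g m (e.symm (Sum.inr i))) = 0 := by
        funext i
        simp [g]
      rw [h6, h7, mono_zero, mul_one]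

end Pool.Agent.Q280.ZU
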