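import Pool.Agent.Q280.ZU.Core

/-!
# Counterexamples to Zilber's conjecture on intersections with tori: the maximal excess is superadditive
-/

set_option autoImplicit false

open MvPolynomial Module

namespace Pool.Agent.Q280.ZU

/-- The points of the torus at which the polynomials of `P` vanish. -/
def points {n : ℕ} (P : Ideal (MvPolynomial (Fin n) ℂ)) : Set (Fin n → ℂ) :=
  {x | (∀ i, x i ≠ 0) ∧ ∀ g ∈ P, eval x g = 0}

/-- `P` is the ideal of an irreducible subvariety of the torus. -/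
def IsSubvariety {n : ℕ} (P : Ideal (MvPolynomial (Fin n) ℂ)) : Prop := P.IsPrime ∧ ∏ i, X i ∉ P

/-- The points of the subvariety `Y` which lie in algebraic subgroups `H` with `dim Y + dim H + c ≤ n`. -/
def unlikely (c : ℕ) {n : ℕ} (P : Ideal (MvPolynomial (Fin n) ℂ)) : Set (Fin n → ℂ) :=
  {x | x ∈ points P ∧ ∃ Λ : Submodule ℤ (Fin n → ℤ),
    ringKrullDim (MvPolynomial (Fin n) ℂ ⧸ P) + ((n - finrank ℤ Λ : ℕ) : WithBot ℕ∞) + (c : WithBot ℕ∞)
      ≤ (n : WithBot ℕ∞) ∧ ∀ a ∈ Λ, ∏ i, x i ^ a i = 1}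

/-- `P` is the ideal of an irreducible subvariety `Y` of the torus, which does not lie in a proper algebraic
subgroup, such that the points of `Y` in algebraic subgroups `H` with `dim Y + dim H + c ≤ n` are Zariski
dense in `Y`. -/
structure Counterexample (c : ℕ) {n : ℕ} (P : Ideal (MvPolynomial (Fin n) ℂ)) : Prop where
  subvariety : IsSubvariety P
  dense : ∀ f : MvPolynomial (Fin n) ℂ, (∀ x ∈ unlikely c P, eval x f = 0) → ∀ x ∈ points P, eval x f = 0
  proper : ∀ a : Fin n → ℤ, (∀ x ∈ points P, ∏ i, x i ^ a i = 1) → a = 0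

variable {n : ℕ}

theorem vid_points {P : Ideal (MvPolynomial (Fin n) ℂ)} (hP : IsSubvariety P) : vid (points P) = P := by
  have hprime := hP.1
  refine le_antisymm (fun f hf => ?_) fun f hf x hx => hx.2 f hf
  have h1 : f * ∏ i, X i ∈ P := by
    rw [← IsPrime.vanishingIdeal_zeroLocus (K := ℂ) P, mem_vanishingIdeal_iff]
    intro x hx
    rw [mem_zeroLocus_iff] at hx
    have he : ∀ g : MvPolynomial (Fin n) ℂ, aeval x g = eval x g := fun g => rfl
    rw [he, map_mul]
    by_cases h0 : ∀ i, x i ≠ 0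
    · rw [hf x ⟨h0, fun g hg => by rw [← he]; exact hx g hg⟩, zero_mul]
    · push Not at h0
      obtain ⟨i, hi⟩ := h0
      rw [map_prod]
      simp only [eval_X]
      rw [Finset.prod_eq_zero (Finset.mem_univ i) hi, mul_zero]
  exact (hprime.mem_or_mem h1).resolve_right hP.2

theorem irr_points {P : Ideal (MvPolynomial (Fin n) ℂ)} (hP : IsSubvariety P) : Irr (points P) := by
  have h := vid_points hP
  have hprime := hP.1
  refine ⟨?_, fun f g hf hg => ?_⟩
  · by_contra hne
    rw [Set.not_nonempty_iff_eq_empty] at hne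
    refine hprime.ne_top ?_
    rw [Ideal.eq_top_iff_one, ← h, mem_vid, hne]
    intro x hx
    exact absurd hx (Set.notMem_empty x)
  · by_contra hcon
    push Not at hcon
    have h1 : f * g ∈ P := by
      rw [← h, mem_vid]
      intro x hx
      rw [map_mul]
      by_cases h2 : eval x f = 0
      · rw [h2, zero_mul]
      · rw [hcon x hx h2, mul_zero]
    rcases hprime.mem_or_mem h1 with h2 | h2
    · rw [← h, mem_vid] at h2
      obtain ⟨v, hv, hv2⟩ := hf
      exact hv2 (h2 v hv)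
    · rw [← h, mem_vid] at h2
      obtain ⟨v, hv, hv2⟩ := hg
      exact hv2 (h2 v hv)

theorem finrank_le_fin {n : ℕ} (Λ : Submodule ℤ (Fin n → ℤ)) : finrank ℤ Λ ≤ n := by
  have := Submodule.finrank_le Λ
  rwa [Module.finrank_fintype_fun_eq_card, Fintype.card_fin] at this

theorem exists_dim {P : Ideal (MvPolynomial (Fin n) ℂ)} (hP : IsSubvariety P) :
    ∃ d : ℕ, ringKrullDim (MvPolynomial (Fin n) ℂ ⧸ P) = d ∧ Algebra.trdeg ℂ (MvPolynomial (Fin n) ℂ ⧸ P) = d := by
  have hprime := hP.1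
  exact Pool.Agent.Helper834.EC.exists_ringKrullDim_eq_trdeg ℂ (MvPolynomial (Fin n) ℂ ⧸ P)

/-- **Superadditivity.** Counterexamples with excess `c_j` in the tori of dimension `m_j` give a counterexample with
excess `∑ c_j` in every torus of dimension at least `∑ m_j`. -/
theorem exists_counterexample {κ : Type} [Fintype κ] {m c : κ → ℕ} {P : ∀ j, Ideal (MvPolynomial (Fin (m j)) ℂ)}
    (hP : ∀ j, Counterexample (c j) (P j)) {N : ℕ} (hN : ∑ j, m j ≤ N) :
    ∃ P' : Ideal (MvPolynomial (Fin N) ℂ), Counterexample (∑ j, c j) P' ∧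
      ringKrullDim (MvPolynomial (Fin N) ℂ ⧸ P') ≤ ∑ j, ringKrullDim (MvPolynomial (Fin (m j)) ℂ ⧸ P j) := by
  classical
  have hsub := fun j => (hP j).subvariety
  have hV0 : ∀ j, ∀ v ∈ points (P j), ∀ i, v i ≠ 0 := fun j v hv => hv.1
  have hvid : ∀ j, vid (points (P j)) = P j := fun j => vid_points (hsub j)
  choose d hd1 hd2 using fun j => exists_dim (hsub j)
  obtain ⟨w, hw0, hw, htr, hprop, hlat⟩ := exists_product (V := fun j => points (P j)) hV0
    (fun j => irr_points (hsub j)) (d := d) (fun j => by rw [hvid]; exact hd2 j) (N := N) (by simpa using hN)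
  have hirr := irr_range (fun j => irr_points (hsub j)) w hw
  have hpr : (vid (Set.range w)).IsPrime := hirr.prime
  have hpts : ∀ y, w y ∈ points (vid (Set.range w)) := fun y => ⟨hw0 y, fun g hg => hg _ ⟨y, rfl⟩⟩
  obtain ⟨⟨_, ⟨y0, rfl⟩⟩, _⟩ := hirr
  have hsub' : IsSubvariety (vid (Set.range w)) := by
    refine ⟨hpr, fun h => ?_⟩
    have h1 := h (w y0) ⟨_, rfl⟩
    rw [map_prod] at h1
    simp only [eval_X] at h1
    exact Finset.prod_ne_zero_iff.mpr (fun s _ => hw0 _ s) h1
  obtain ⟨d', hd1', hd2'⟩ := exists_dim hsub'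
  have hdd : d' ≤ ∑ j, d j := by
    rw [hd2'] at htr
    exact_mod_cast htr
  refine ⟨vid (Set.range w), ⟨hsub', fun f hf x hx => hx.2 f ?_, fun a ha => ?_⟩, ?_⟩
  · by_contra hfP
    rw [mem_vid] at hfP
    push Not at hfP
    obtain ⟨_, ⟨y, rfl⟩, hy⟩ := hfP
    obtain ⟨u, hu1, hu2⟩ := exists_mem (fun j => PolyFun (points (P j)))
      (fun j => {v | (v : Fin (m j) → ℂ) ∈ unlikely (c j) (P j)})
      (by
        rintro j g ⟨G, hG⟩ ⟨v, hv⟩
        by_contra hcon
        push Not at hcon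
        have h1 := (hP j).dense G (fun x hx => by rw [← hG ⟨x, hx.1⟩]; exact hcon ⟨x, hx.1⟩ hx) v v.2
        rw [hG] at hv
        exact hv h1)
      (fun y => eval (w y) f) (sep_eval w hw f) y hy
    refine hu2 (hf _ ⟨hpts u, ?_⟩)
    choose Λ hΛ1 hΛ2 using fun j => (hu1 j).2
    obtain ⟨Λ', h1, h2⟩ := hlat Λ fun j a ha hac =>
      (hP j).proper a fun x hx => (hac x hx _ (u j).2).trans (hΛ2 j a ha)
    refine ⟨Λ', ?_, fun a ha => ?_⟩
    · rw [hd1']
      have h3 : ∀ j, d j + c j ≤ finrank ℤ (Λ j) := by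
        intro j
        have h4 := hΛ1 j
        rw [hd1] at h4
        have h5 : d j + (m j - finrank ℤ (Λ j)) + c j ≤ m j := by exact_mod_cast h4
        have h6 := finrank_le_fin (Λ j)
        omega
      have h4 : ∑ j, d j + ∑ j, c j ≤ finrank ℤ Λ' := by
        refine le_trans ?_ h1
        rw [← Finset.sum_add_distrib]
        exact Finset.sum_le_sum fun j _ => h3 j
      have h5 := finrank_le_fin Λ'
      have h6 : d' + (N - finrank ℤ Λ') + ∑ j, c j ≤ N := by omega
      exact_mod_cast h6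
    · obtain ⟨g, hg1, hg2⟩ := h2 a ha
      exact (hg2 u).trans (Finset.prod_eq_one fun j _ => hΛ2 j _ (hg1 j))
  · exact hprop a fun y => ha _ (hpts y)
  · rw [hd1']
    simp only [hd1]
    exact_mod_cast hdd

end Pool.Agent.Q280.ZU
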