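import Pool.Agent.Q280.ZU.Low
import Pool.Agent.Q280.ZU.Main

/-!
# Products of subvarieties of tori, moved to a torus of given dimension: the frame
-/

set_option autoImplicit false

open MvPolynomial Module

namespace Pool.Agent.Q280.ZU

variable {κ : Type} [Fintype κ] [DecidableEq κ] {τ : κ → Type} [∀ j, Fintype (τ j)] [∀ j, DecidableEq (τ j)]

/-- **The frame.** -/
theorem exists_frame {V : ∀ j, Set (τ j → ℂ)} (hV0 : ∀ j, ∀ v ∈ V j, ∀ i, v i ≠ 0) (v0 : ∀ j, V j) {N : ℕ}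
    (hN : ∑ j, Fintype.card (τ j) ≤ N) :
    ∃ (I : Finset (Σ j, τ j)) (r : ℕ) (δ : Fin r → ℂ) (e : Fin N ≃ I ⊕ Fin r), (∀ i, δ i ≠ 0) ∧
      (∀ i ∉ I, ∃ a : (Σ j, τ j) → ℤ, (∀ y : ∀ j, V j, mono (pr fun j => (y j : τ j → ℂ)) a = 1) ∧
        (∀ l ∉ insert i I, a l = 0) ∧ a i ≠ 0) ∧
      (∀ a, (∀ y : ∀ j, V j, mono (glue (fun i : I => (i : Σ j, τ j)) δ e fun j => (y j : τ j → ℂ)) a = 1) → a = 0) ∧
      ∀ Λ : ∀ j, Submodule ℤ (τ j → ℤ), (∀ j, ∀ a ∈ Λ j, a ∈ cst (V j) (hV0 j) → a = 0) →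
        ∃ Λ' : Submodule ℤ (Fin N → ℤ), ∑ j, finrank ℤ (Λ j) ≤ finrank ℤ Λ' ∧
          ∀ a ∈ Λ', ∃ c : ∀ j, τ j → ℤ, (∀ j, c j ∈ Λ j) ∧
            ∀ y : ∀ j, V j, mono (glue (fun i : I => (i : Σ j, τ j)) δ e fun j => (y j : τ j → ℂ)) a =
              ∏ j, mono (y j : τ j → ℂ) (c j) := by
  let W : Set ((Σ j, τ j) → ℂ) := Set.range fun y : ∀ j, V j => pr fun j => (y j : τ j → ℂ)
  have hW0 : ∀ z ∈ W, ∀ p, z p ≠ 0 := by
    rintro _ ⟨y, rfl⟩ p
    exact hV0 p.1 _ (y p.1).2 p.2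
  obtain ⟨I, hI1, hI2⟩ := exists_index (triv W hW0)
  have hIN : I.card ≤ N := by
    refine le_trans (Finset.card_le_univ I) ?_
    rwa [Fintype.card_sigma]
  have e : Fin N ≃ I ⊕ Fin (N - I.card) := by
    refine Fintype.equivOfCardEq ?_
    rw [Fintype.card_sum, Fintype.card_fin, Fintype.card_fin, Fintype.card_coe]
    omega
  obtain ⟨δ, hδ0, hδ⟩ := exists_indep (pr fun j => (v0 j : τ j → ℂ)) (N - I.card)
  refine ⟨I, N - I.card, δ, e, hδ0, ?_, ?_, ?_⟩
  · intro i hi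
    obtain ⟨a, h1, h2, h3⟩ := hI2 i hi
    exact ⟨a, fun y => h1 _ ⟨y, rfl⟩, h2, h3⟩
  · intro a ha
    have h1 := ha v0
    rw [mono_glue] at h1
    have h2 := hδ _ _ h1
    have h3 : ext I (fun i => a (e.symm (Sum.inl i))) ∈ triv W hW0 := by
      rintro _ ⟨y, rfl⟩
      have h4 := ha y
      rwa [mono_glue, h2, mono_zero, mul_one] at h4
    have h4 := hI1 _ h3 fun i hi => ext_notMem _ hi
    funext s
    obtain ⟨z, rfl⟩ := e.symm.surjective s
    rcases z with i | i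
    · have h5 := ext_mem (fun i => a (e.symm (Sum.inl i))) i
      rw [h4] at h5
      exact h5.symm
    · exact congrFun h2 i
  · intro Λ hΛ
    obtain ⟨Λ1, h1, h2⟩ := exists_prod_lattice Λ
    obtain ⟨Λ2, h3, h4⟩ := exists_proj (Λ := Λ1) hI1 hI2 (by
      intro a ha haR
      have h3 : ∀ j, (fun i => a ⟨j, i⟩) = (0 : τ j → ℤ) := fun j =>
        hΛ j _ (h2 a ha j) (mem_cst_of_prod hV0 v0 (c := fun j i => a ⟨j, i⟩) (z := 1)
          (fun y => by rw [← mono_pr]; exact haR _ ⟨y, rfl⟩) j)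
      funext p
      exact congrFun (h3 p.1) p.2)
    let g : (I → ℤ) →ₗ[ℤ] (Fin N → ℤ) :=
      { toFun := fun m s => Sum.elim m (fun _ => 0) (e s)
        map_add' := fun m l => by
          funext s
          rcases h : e s with p | i <;> simp [h]
        map_smul' := fun m l => by
          funext s
          rcases h : e s with p | i <;> simp [h] }
    have hg : Function.Injective g := by
      intro m l h
      funext i
      have h5 := congrFun h (e.symm (Sum.inl i))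
      simpa [g] using h5
    refine ⟨Λ2.map g, ?_, ?_⟩
    · rw [h1, ← (Submodule.equivMapOfInjective g hg Λ2).finrank_eq]
      exact h3
    · rintro _ ⟨m, hm, rfl⟩
      obtain ⟨ρ, hρ, h5⟩ := h4 m hm
      refine ⟨fun j i => (ext I m + ρ) ⟨j, i⟩, fun j => h2 _ h5 j, fun y => ?_⟩
      rw [mono_glue, ← mono_pr, mono_add (hW0 _ ⟨y, rfl⟩), hρ _ ⟨y, rfl⟩, mul_one]
      have h6 : (fun i => g m (e.symm (Sum.inl i))) = m := by
        funext i
        simp [g]
      have h7 : (fun i => g m (e.symm (Sum.inr i))) = 0 := by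
        funext i
        simp [g]
      rw [h6, h7, mono_zero, mul_one]

/-- a character of the glued points, as a function of one factor -/
theorem mono_glue_update {V : ∀ j, Set (τ j → ℂ)} {σ ρ : Type} [Fintype σ]
    [Fintype ρ] {I : Finset (Σ j, τ j)} {δ : ρ → ℂ} (e : σ ≃ I ⊕ ρ) (y : ∀ j, V j) (l : κ) (a : σ → ℤ) :
    ∃ (C : ℂ) (c : τ l → ℤ), ∀ v : V l,
      mono (glue (fun i : I => (i : Σ j, τ j)) δ e fun j => ((Function.update y l v j : V j) : τ j → ℂ)) a =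
        C * mono (v : τ l → ℂ) c := by
  refine ⟨(∏ j ∈ Finset.univ.erase l, mono (y j : τ j → ℂ) fun i =>
    ext I (fun i => a (e.symm (Sum.inl i))) ⟨j, i⟩) * mono δ fun i => a (e.symm (Sum.inr i)),
    fun i => ext I (fun i => a (e.symm (Sum.inl i))) ⟨l, i⟩, fun v => ?_⟩
  rw [mono_glue, mono_pr, ← Finset.mul_prod_erase _ _ (Finset.mem_univ l)]
  have h1 : ∏ j ∈ Finset.univ.erase l, mono ((Function.update y l v j : V j) : τ j → ℂ) (fun i =>
      ext I (fun i => a (e.symm (Sum.inl i))) ⟨j, i⟩) = ∏ j ∈ Finset.univ.erase l, mono (y j : τ j → ℂ) fun i =>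
      ext I (fun i => a (e.symm (Sum.inl i))) ⟨j, i⟩ :=
    Finset.prod_congr rfl fun j hj => by rw [Function.update_of_ne (Finset.ne_of_mem_erase hj)]
  rw [h1, Function.update_self]
  ring

/-- the polynomial which vanishes where `C` times a character is 1 -/
noncomputable def relP {ρ : Type} [Fintype ρ] (C : ℂ) (c : ρ → ℤ) : MvPolynomial ρ ℂ :=
  MvPolynomial.C C * posP c - posP (-c)

theorem eval_relP {ρ : Type} [Fintype ρ] {x : ρ → ℂ} (hx : ∀ i, x i ≠ 0) (C : ℂ) (c : ρ → ℤ) :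
    eval x (relP C c) = 0 ↔ C * mono x c = 1 := by
  unfold relP
  rw [map_sub, map_mul, eval_C, eval_posP hx]
  have h1 := eval_posP_ne_zero hx (-c)
  constructor
  · intro h
    have h2 : (C * mono x c - 1) * eval x (posP (-c)) = 0 := by
      rw [← h]
      ring
    exact sub_eq_zero.mp ((mul_eq_zero.mp h2).resolve_right h1)
  · intro h
    rw [← mul_assoc, h, one_mul, sub_self]

end Pool.Agent.Q280.ZU
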