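import Mathlib

/-!
# Characters and lattices
-/

set_option autoImplicit false

open Module

namespace Pool.Agent.Q280.ZU

variable {σ : Type} [Fintype σ]

/-- the value of a character at a point -/
noncomputable def mono (x : σ → ℂ) (a : σ → ℤ) : ℂ := ∏ i, x i ^ a i

section mono
variable {x : σ → ℂ}

theorem mono_zero : mono x 0 = 1 := by simp [mono]

theorem mono_add (hx : ∀ i, x i ≠ 0) (a b : σ → ℤ) : mono x (a + b) = mono x a * mono x b := by
  unfold mono
  rw [← Finset.prod_mul_distrib]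
  exact Finset.prod_congr rfl fun i _ => zpow_add₀ (hx i) _ _

theorem mono_smul (m : ℤ) (a : σ → ℤ) : mono x (m • a) = mono x a ^ m := by
  unfold mono
  rw [← Finset.prod_zpow]
  exact Finset.prod_congr rfl fun i _ => by rw [Pi.smul_apply, smul_eq_mul, mul_comm, zpow_mul]

theorem mono_ne_zero (hx : ∀ i, x i ≠ 0) (a : σ → ℤ) : mono x a ≠ 0 :=
  Finset.prod_ne_zero_iff.mpr fun i _ => zpow_ne_zero _ (hx i)

end mono

/-- a maximal set of coordinates which are independent modulo a lattice -/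
theorem exists_index [DecidableEq σ] (Λ : Submodule ℤ (σ → ℤ)) : ∃ I : Finset σ,
    (∀ a ∈ Λ, (∀ i ∉ I, a i = 0) → a = 0) ∧
    ∀ i ∉ I, ∃ a ∈ Λ, (∀ l ∉ insert i I, a l = 0) ∧ a i ≠ 0 := by
  classical
  obtain ⟨I, hI, hmax⟩ := Finset.exists_max_image
    (Finset.univ.filter fun I : Finset σ => ∀ a ∈ Λ, (∀ i ∉ I, a i = 0) → a = 0) Finset.card
    ⟨∅, by
      rw [Finset.mem_filter]
      exact ⟨Finset.mem_univ _, fun a _ h => funext fun i => h i (Finset.notMem_empty i)⟩⟩
  rw [Finset.mem_filter] at hI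
  refine ⟨I, hI.2, fun i hi => ?_⟩
  by_contra hcon
  push Not at hcon
  have h1 := hmax (insert i I) (by
    rw [Finset.mem_filter]
    refine ⟨Finset.mem_univ _, fun a ha h => hI.2 a ha fun l hl => ?_⟩
    by_cases hli : l = i
    · subst hli
      exact hcon a ha h
    · exact h l fun hl' => hl ((Finset.mem_insert.mp hl').resolve_left hli))
  rw [Finset.card_insert_of_notMem hi] at h1
  omega

variable [DecidableEq σ]

/-- extension by zero -/
def ext (I : Finset σ) : (I → ℤ) →ₗ[ℤ] (σ → ℤ) where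
  toFun m i := if h : i ∈ I then m ⟨i, h⟩ else 0
  map_add' a b := by
    funext i
    by_cases h : i ∈ I <;> simp [h]
  map_smul' c a := by
    funext i
    by_cases h : i ∈ I <;> simp [h]

omit [Fintype σ] in
theorem ext_mem {I : Finset σ} (m : I → ℤ) (i : I) : ext I m i = m i := by
  simp [ext]

omit [Fintype σ] in
theorem ext_notMem {I : Finset σ} (m : I → ℤ) {i : σ} (h : i ∉ I) : ext I m i = 0 := by
  simp [ext, h]

theorem mono_ext {I : Finset σ} (x : σ → ℂ) (m : I → ℤ) : mono x (ext I m) = mono (fun i : I => x i) m := by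
  unfold mono
  have h1 : ∏ i, x i ^ ext I m i = ∏ i ∈ I, x i ^ ext I m i := by
    refine (Finset.prod_subset (Finset.subset_univ I) fun i _ hi => ?_).symm
    rw [ext_notMem m hi, zpow_zero]
  rw [h1, ← Finset.prod_coe_sort]
  exact Finset.prod_congr rfl fun i _ => by rw [ext_mem]

/-- the characters in the coordinates of `I` and the characters of `R` -/
def co (I : Finset σ) (R : Submodule ℤ (σ → ℤ)) : ((I → ℤ) × R) →ₗ[ℤ] (σ → ℤ) := (ext I).coprod R.subtype

omit [Fintype σ] in
theorem co_apply (I : Finset σ) (R : Submodule ℤ (σ → ℤ)) (p : (I → ℤ) × R) : co I R p = ext I p.1 + p.2 := by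
  unfold co
  rw [LinearMap.coprod_apply]
  rfl

omit [Fintype σ] in
theorem co_injective {I : Finset σ} {R : Submodule ℤ (σ → ℤ)} (hI : ∀ a ∈ R, (∀ i ∉ I, a i = 0) → a = 0) :
    Function.Injective (co I R) := by
  rw [injective_iff_map_eq_zero]
  rintro ⟨m, l⟩ h
  rw [co_apply] at h
  simp only at h
  have h2 : ext I m ∈ R := by
    rw [eq_neg_of_add_eq_zero_left h]
    exact R.neg_mem l.2
  have h3 : ext I m = 0 := hI _ h2 fun i hi => ext_notMem m hi
  have h4 : m = 0 := funext fun i => by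
    rw [← ext_mem m i, h3]
    rfl
  rw [h3, zero_add] at h
  exact Prod.ext h4 (Subtype.ext h)

theorem co_index {I : Finset σ} {R : Submodule ℤ (σ → ℤ)}
    (hI : ∀ i ∉ I, ∃ a ∈ R, (∀ l ∉ insert i I, a l = 0) ∧ a i ≠ 0) :
    ∃ M : ℤ, M ≠ 0 ∧ ∀ a, M • a ∈ LinearMap.range (co I R) := by
  have hL : ∀ a ∈ R, a ∈ LinearMap.range (co I R) := fun a ha => by
    refine ⟨(0, ⟨a, ha⟩), ?_⟩
    rw [co_apply, map_zero, zero_add]
  have hE : ∀ a : σ → ℤ, (∀ i ∉ I, a i = 0) → a ∈ LinearMap.range (co I R) := fun a ha => by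
    refine ⟨(fun i => a i, 0), ?_⟩
    rw [co_apply]
    funext i
    by_cases h : i ∈ I
    · have := ext_mem (fun i : I => a i) ⟨i, h⟩
      simp only at this
      rw [Pi.add_apply, this]
      simp
    · rw [Pi.add_apply, ext_notMem _ h, ha i h]
      simp
  have h1 : ∀ i, ∃ M : ℤ, M ≠ 0 ∧ M • (Pi.single i 1 : σ → ℤ) ∈ LinearMap.range (co I R) := by
    intro i
    by_cases h : i ∈ I
    · refine ⟨1, one_ne_zero, ?_⟩
      rw [one_smul]
      refine hE _ fun l hl => ?_
      rw [Pi.single_eq_of_ne]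
      rintro rfl
      exact hl h
    · obtain ⟨a, ha, h2, h3⟩ := hI i h
      refine ⟨a i, h3, ?_⟩
      have h4 : a i • (Pi.single i 1 : σ → ℤ) = a - (a - a i • (Pi.single i 1 : σ → ℤ)) := by abel
      rw [h4]
      refine Submodule.sub_mem _ (hL a ha) (hE _ fun l hl => ?_)
      by_cases hli : l = i
      · subst hli
        simp
      · rw [Pi.sub_apply, h2 l fun hl' => hl ((Finset.mem_insert.mp hl').resolve_left hli), Pi.smul_apply,
          Pi.single_eq_of_ne hli]
        simp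
  choose M hM0 hM using h1
  refine ⟨∏ i, M i, Finset.prod_ne_zero_iff.mpr fun i _ => hM0 i, fun a => ?_⟩
  have h2 : a = ∑ i, a i • (Pi.single i 1 : σ → ℤ) := by
    funext l
    simp [Finset.sum_apply, Pi.single_apply]
  rw [h2, Finset.smul_sum]
  refine Submodule.sum_mem _ fun i _ => ?_
  rw [← Finset.mul_prod_erase _ _ (Finset.mem_univ i), smul_smul, mul_comm (M i), mul_assoc, mul_comm (M i),
    ← mul_assoc, ← smul_smul]
  exact Submodule.smul_mem _ _ (hM i)

/-- the rank does not change when one passes to the coordinates of `I` -/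
theorem exists_proj {I : Finset σ} {R Λ : Submodule ℤ (σ → ℤ)} (hI1 : ∀ a ∈ R, (∀ i ∉ I, a i = 0) → a = 0)
    (hI2 : ∀ i ∉ I, ∃ a ∈ R, (∀ l ∉ insert i I, a l = 0) ∧ a i ≠ 0) (hΛ : ∀ a ∈ Λ, a ∈ R → a = 0) :
    ∃ Λ' : Submodule ℤ (I → ℤ), finrank ℤ Λ ≤ finrank ℤ Λ' ∧ ∀ m ∈ Λ', ∃ ρ ∈ R, ext I m + ρ ∈ Λ := by
  obtain ⟨M, hM, h⟩ := co_index hI2
  have hinj := co_injective hI1
  let e := LinearEquiv.ofInjective (co I R) hinj
  have he : ∀ y, co I R (e.symm y) = y := fun y => by
    have := LinearEquiv.apply_symm_apply e y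
    exact congrArg Subtype.val this
  let g : Λ →ₗ[ℤ] (I → ℤ) := LinearMap.fst ℤ (I → ℤ) R ∘ₗ e.symm.toLinearMap ∘ₗ
    LinearMap.codRestrict (LinearMap.range (co I R)) (M • Λ.subtype) fun a => h a
  have hg : ∀ a : Λ, ∃ ρ ∈ R, M • (a : σ → ℤ) = ext I (g a) + ρ := by
    intro a
    let p : (I → ℤ) × R := e.symm ⟨M • (a : σ → ℤ), h a⟩
    have h1 : co I R p = M • (a : σ → ℤ) := he _
    rw [co_apply] at h1
    exact ⟨p.2, p.2.2, h1.symm⟩
  have hginj : Function.Injective g := by
    rw [injective_iff_map_eq_zero]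
    intro a ha
    obtain ⟨ρ, h1, h2⟩ := hg a
    rw [ha, map_zero, zero_add] at h2
    have h3 : M • (a : σ → ℤ) = 0 := hΛ _ (Λ.smul_mem M a.2) (by rw [h2]; exact h1)
    exact Subtype.ext ((smul_eq_zero.mp h3).resolve_left hM)
  refine ⟨LinearMap.range g, (LinearMap.finrank_range_of_inj hginj).ge, ?_⟩
  rintro _ ⟨a, rfl⟩
  obtain ⟨ρ, h1, h2⟩ := hg a
  exact ⟨ρ, h1, by rw [← h2]; exact Λ.smul_mem M a.2⟩

omit [DecidableEq σ] in
/-- numbers without multiplicative relations modulo the group generated by the coordinates of a point -/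
theorem exists_indep (x : σ → ℂ) (r : ℕ) :
    ∃ δ : Fin r → ℂ, (∀ i, δ i ≠ 0) ∧ ∀ (l : σ → ℤ) (q : Fin r → ℤ), mono x l * mono δ q = 1 → q = 0 := by
  induction r with
  | zero => exact ⟨fun i => i.elim0, fun i => i.elim0, fun l q _ => funext fun i => i.elim0⟩
  | succ r ih =>
    obtain ⟨δ, h1, h2⟩ := ih
    have hc : (⋃ p : (σ → ℤ) × (Fin r → ℤ) × {m : ℤ // m ≠ 0},
        {z : ℂ | z ≠ 0 ∧ mono x p.1 * mono δ p.2.1 * z ^ (p.2.2 : ℤ) = 1}).Countable := by
      refine Set.countable_iUnion fun p => Set.Finite.countable ?_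
      obtain ⟨l, q, m, hm⟩ := p
      have h4 : ∀ c : ℂ, {z : ℂ | z ^ m.natAbs = c}.Finite := fun c => by
        have h5 : (Polynomial.X ^ m.natAbs - Polynomial.C c : Polynomial ℂ) ≠ 0 :=
          Polynomial.X_pow_sub_C_ne_zero (Int.natAbs_pos.mpr hm) c
        refine (Polynomial.X ^ m.natAbs - Polynomial.C c : Polynomial ℂ).roots.toFinset.finite_toSet.subset fun z hz => ?_
        rw [Finset.mem_coe, Multiset.mem_toFinset, Polynomial.mem_roots h5]
        simp only [Polynomial.IsRoot, Polynomial.eval_sub, Polynomial.eval_pow, Polynomial.eval_X, Polynomial.eval_C]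
        rw [Set.mem_ofPred_eq] at hz
        rw [hz, sub_self]
      refine ((h4 (mono x l * mono δ q)⁻¹).union (h4 (mono x l * mono δ q))).subset fun z hz => ?_
      obtain ⟨hz0, hz⟩ := hz
      simp only at hz
      rcases Int.natAbs_eq m with hm' | hm'
      · left
        rw [Set.mem_ofPred_eq]
        rw [hm', zpow_natCast] at hz
        exact (eq_inv_of_mul_eq_one_right hz)
      · right
        rw [Set.mem_ofPred_eq]
        rw [hm', zpow_neg, zpow_natCast] at hz
        have h5 : z ^ m.natAbs ≠ 0 := pow_ne_zero _ hz0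
        field_simp at hz
        exact hz.symm
    obtain ⟨z, hz⟩ : ∃ z : ℂ, z ∉ ((⋃ p : (σ → ℤ) × (Fin r → ℤ) × {m : ℤ // m ≠ 0},
        {z : ℂ | z ≠ 0 ∧ mono x p.1 * mono δ p.2.1 * z ^ (p.2.2 : ℤ) = 1}) ∪ {0}) := by
      by_contra hcon
      push Not at hcon
      exact not_countable_complex ((hc.union (Set.countable_singleton 0)).mono fun z _ => hcon z)
    rw [Set.mem_union, not_or, Set.mem_singleton_iff] at hz
    refine ⟨Fin.snoc δ z, fun i => ?_, fun l q hlq => ?_⟩
    · refine Fin.lastCases ?_ (fun i => ?_) i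
      · rw [Fin.snoc_last]
        exact hz.2
      · rw [Fin.snoc_castSucc]
        exact h1 i
    · have h3 : mono (Fin.snoc δ z : Fin (r + 1) → ℂ) q = mono δ (fun i => q i.castSucc) * z ^ q (Fin.last r) := by
        unfold mono
        rw [Fin.prod_univ_castSucc]
        simp
      rw [h3, ← mul_assoc] at hlq
      have h4 : q (Fin.last r) = 0 := by
        by_contra hq
        exact hz.1 (Set.mem_iUnion.mpr ⟨(l, fun i => q i.castSucc, ⟨q (Fin.last r), hq⟩), hz.2, hlq⟩)
      rw [h4, zpow_zero, mul_one] at hlq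
      have h6 := h2 l _ hlq
      funext i
      refine Fin.lastCases ?_ (fun i => ?_) i
      · exact h4
      · exact congrFun h6 i

/-- the characters which are constant on a set -/
def cst (V : Set (σ → ℂ)) (hV : ∀ v ∈ V, ∀ i, v i ≠ 0) : Submodule ℤ (σ → ℤ) where
  carrier := {a | ∀ v ∈ V, ∀ u ∈ V, mono v a = mono u a}
  add_mem' := fun {a b} ha hb v hv u hu => by
    rw [mono_add (hV v hv), mono_add (hV u hu), ha v hv u hu, hb v hv u hu]
  zero_mem' := fun v _ u _ => by rw [mono_zero, mono_zero]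
  smul_mem' := fun m a ha v hv u hu => by rw [mono_smul, mono_smul, ha v hv u hu]

/-- the characters with value 1 on a set -/
def triv (V : Set (σ → ℂ)) (hV : ∀ v ∈ V, ∀ i, v i ≠ 0) : Submodule ℤ (σ → ℤ) where
  carrier := {a | ∀ v ∈ V, mono v a = 1}
  add_mem' := fun {a b} ha hb v hv => by rw [mono_add (hV v hv), ha v hv, hb v hv, one_mul]
  zero_mem' := fun v _ => mono_zero
  smul_mem' := fun m a ha v hv => by rw [mono_smul, ha v hv, one_zpow]

end Pool.Agent.Q280.ZU
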