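import Pool.Agent.Q280.ZU.Core

/-!
# The dimension of products of varieties, lower bound
-/

set_option autoImplicit false

open MvPolynomial Module Algebra

namespace Pool.Agent.Q280.ZU

/-- a quotient of a polynomial ring has a transcendence basis consisting of variables -/
theorem exists_coords {τ : Type} [Finite τ] (Q : Ideal (MvPolynomial τ ℂ)) [Q.IsPrime] (s : Set τ)
    (hs : ∀ i, IsAlgebraic (adjoin ℂ ((fun p => Ideal.Quotient.mk Q (X p)) '' s)) (Ideal.Quotient.mk Q (X i))) :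
    ∃ (β : Type) (_ : Fintype β) (loc : β → τ), (∀ b, loc b ∈ s) ∧ (Fintype.card β : Cardinal) =
      trdeg ℂ (MvPolynomial τ ℂ ⧸ Q) ∧ AlgebraicIndependent ℂ fun b => Ideal.Quotient.mk Q (X (loc b)) := by
  classical
  let S : Set (MvPolynomial τ ℂ ⧸ Q) := (fun p => Ideal.Quotient.mk Q (X p)) '' s
  have hA : Algebra.IsAlgebraic (adjoin ℂ S) (MvPolynomial τ ℂ ⧸ Q) := by
    refine ⟨fun r => ?_⟩
    obtain ⟨F, rfl⟩ := Ideal.Quotient.mk_surjective r
    induction F using MvPolynomial.induction_on with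
    | C c => exact isAlgebraic_algebraMap (⟨_, (adjoin ℂ S).algebraMap_mem c⟩ : adjoin ℂ S)
    | add F G hF hG =>
      rw [map_add]
      exact hF.add hG
    | mul_X F p hF =>
      rw [map_mul]
      exact hF.mul (hs p)
  obtain ⟨t, ht, hB⟩ := exists_isTranscendenceBasis_subset (R := ℂ) S
  have hfin : t.Finite := ((Set.toFinite s).image _).subset ht
  have hch : ∀ b : t, ∃ p ∈ s, Ideal.Quotient.mk Q (X p) = (b : MvPolynomial τ ℂ ⧸ Q) := fun b => ht b.2
  choose loc h1 h2 using hch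
  have hft : Fintype t := hfin.fintype
  refine ⟨t, hft, loc, h1, ?_, ?_⟩
  · rw [← hB.cardinalMk_eq_trdeg]
    exact (Cardinal.mk_fintype t).symm
  · have h3 : (fun b => Ideal.Quotient.mk Q (X (loc b))) = ((↑) : t → MvPolynomial τ ℂ ⧸ Q) := funext h2
    rw [h3]
    exact hB.1

/-- independence as density -/
theorem indep_iff {τ β : Type} (W : Set (τ → ℂ)) (loc : β → τ) :
    (AlgebraicIndependent ℂ fun b => Ideal.Quotient.mk (vid W) (X (loc b))) ↔
      ∀ F : MvPolynomial β ℂ, (∀ x ∈ W, eval (x ∘ loc) F = 0) → F = 0 := by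
  rw [algebraicIndependent_iff]
  have h : ∀ F : MvPolynomial β ℂ, aeval (fun b => Ideal.Quotient.mk (vid W) (X (loc b))) F =
      Ideal.Quotient.mk (vid W) (rename loc F) := by
    intro F
    induction F using MvPolynomial.induction_on with
    | C c =>
      rw [aeval_C, rename_C]
      rfl
    | add F G hF hG => rw [map_add, map_add, map_add, hF, hG]
    | mul_X F p hF => rw [map_mul, map_mul, map_mul, hF, aeval_X, rename_X]
  refine forall_congr' fun F => ?_
  rw [h, Ideal.Quotient.eq_zero_iff_mem, mem_vid]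
  simp only [eval_rename]

variable {κ : Type} [Fintype κ] [DecidableEq κ]

/-- products of dense sets are dense -/
theorem dense_prod {β : κ → Type} (U : ∀ j, Set (β j → ℂ))
    (hU : ∀ j, ∀ F : MvPolynomial (β j) ℂ, (∀ u ∈ U j, eval u F = 0) → F = 0) (F : MvPolynomial (Σ j, β j) ℂ)
    (hF : ∀ y : ∀ j, β j → ℂ, (∀ j, y j ∈ U j) → eval (pr y) F = 0) : F = 0 := by
  apply MvPolynomial.funext
  intro z
  rw [map_zero]
  by_contra hz
  obtain ⟨u, hu1, hu2⟩ := exists_mem (V := fun j => (Set.univ : Set (β j → ℂ)))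
    (fun j => PolyFun (Set.univ : Set (β j → ℂ))) (fun j => {v | (v : β j → ℂ) ∈ U j})
    (by
      rintro j f ⟨G, hG⟩ ⟨v, hv⟩
      by_contra hcon
      push Not at hcon
      have h1 : G = 0 := hU j G fun u hu => by
        rw [← hG ⟨u, trivial⟩]
        exact hcon ⟨u, trivial⟩ hu
      rw [hG, h1, map_zero] at hv
      exact hv rfl)
    (fun y => eval (pr fun j => (y j : β j → ℂ)) F)
    (sep_eval (V := fun j => (Set.univ : Set (β j → ℂ))) (fun y => pr fun j => (y j : β j → ℂ))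
      (fun s y j => sep_at s y j) F) (fun j => ⟨fun b => z ⟨j, b⟩, trivial⟩) hz
  exact hu2 (hF _ hu1)

/-- the lower bound for the product -/
theorem le_trdeg_prod {τ : κ → Type} [∀ j, Finite (τ j)] {V : ∀ j, Set (τ j → ℂ)} (hirr : ∀ j, Irr (V j)) {d : κ → ℕ}
    (hd : ∀ j, trdeg ℂ (MvPolynomial (τ j) ℂ ⧸ vid (V j)) = d j) :
    ((∑ j, d j : ℕ) : Cardinal) ≤ trdeg ℂ (MvPolynomial (Σ j, τ j) ℂ ⧸
      vid (Set.range fun y : ∀ j, V j => pr fun j => (y j : τ j → ℂ))) := by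
  have hpr : ∀ j, (vid (V j)).IsPrime := fun j => (hirr j).prime
  have h0 : ∀ j, ∃ (β : Type) (_ : Fintype β) (loc : β → τ j), (Fintype.card β : Cardinal) = d j ∧
      AlgebraicIndependent ℂ fun b => Ideal.Quotient.mk (vid (V j)) (X (loc b)) := by
    intro j
    obtain ⟨β, h1, loc, _, h3, h4⟩ := exists_coords (vid (V j)) Set.univ fun i => by
      have h1 : Ideal.Quotient.mk (vid (V j)) (X i) ∈
          adjoin ℂ ((fun p => Ideal.Quotient.mk (vid (V j)) (X p)) '' Set.univ) :=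
        subset_adjoin ⟨i, trivial, rfl⟩
      exact isAlgebraic_algebraMap (⟨_, h1⟩ : adjoin ℂ ((fun p => Ideal.Quotient.mk (vid (V j)) (X p)) '' Set.univ))
    exact ⟨β, h1, loc, by rw [h3, hd], h4⟩
  choose β hβ loc h1 h2 using h0
  have h3 : AlgebraicIndependent ℂ fun b : Σ j, β j =>
      Ideal.Quotient.mk (vid (Set.range fun y : ∀ j, V j => pr fun j => (y j : τ j → ℂ)))
        (X (⟨b.1, loc b.1 b.2⟩ : Σ j, τ j)) := by
    rw [indep_iff _ (fun b : Σ j, β j => (⟨b.1, loc b.1 b.2⟩ : Σ j, τ j))]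
    intro F hF
    refine dense_prod (fun j => {u | ∃ x ∈ V j, u = x ∘ loc j}) (fun j G hG => ?_) F fun y hy => ?_
    · exact (indep_iff (V j) (loc j)).mp (h2 j) G fun x hx => hG _ ⟨x, hx, rfl⟩
    · choose x hx1 hx2 using hy
      have h4 := hF _ ⟨fun j => ⟨x j, hx1 j⟩, rfl⟩
      have h5 : pr y = (pr fun j => x j) ∘ fun b : Σ j, β j => (⟨b.1, loc b.1 b.2⟩ : Σ j, τ j) := by
        funext b
        show y b.1 b.2 = x b.1 (loc b.1 b.2)
        rw [hx2]
        rfl
      rw [h5]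
      exact h4
  have h4 := h3.cardinalMk_le_trdeg
  refine le_trans (le_of_eq ?_) h4
  rw [Cardinal.mk_fintype, Fintype.card_sigma]
  have h5 : ∀ j, Fintype.card (β j) = d j := fun j => by exact_mod_cast h1 j
  simp only [h5]

/-- the numerator of a character -/
noncomputable def posP {ρ : Type} [Fintype ρ] (a : ρ → ℤ) : MvPolynomial ρ ℂ := ∏ l, X l ^ (a l).toNat

theorem eval_posP {ρ : Type} [Fintype ρ] {x : ρ → ℂ} (hx : ∀ i, x i ≠ 0) (a : ρ → ℤ) :
    eval x (posP a) = mono x a * eval x (posP (-a)) := by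
  unfold posP mono
  rw [map_prod, map_prod, ← Finset.prod_mul_distrib]
  refine Finset.prod_congr rfl fun l _ => ?_
  rw [map_pow, map_pow, eval_X, Pi.neg_apply, ← zpow_natCast, ← zpow_natCast, ← zpow_add₀ (hx l)]
  congr 1
  omega

theorem eval_posP_ne_zero {ρ : Type} [Fintype ρ] {x : ρ → ℂ} (hx : ∀ i, x i ≠ 0) (a : ρ → ℤ) :
    eval x (posP a) ≠ 0 := by
  unfold posP
  rw [map_prod]
  refine Finset.prod_ne_zero_iff.mpr fun l _ => ?_
  rw [map_pow, eval_X]
  exact pow_ne_zero _ (hx l)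

/-- a coordinate which satisfies a multiplicative relation is algebraic -/
theorem isAlgebraic_coord {ρ : Type} [Fintype ρ] [DecidableEq ρ] {W : Set (ρ → ℂ)} (hW : Irr W)
    (hW0 : ∀ x ∈ W, ∀ i, x i ≠ 0) {I : Finset ρ} {i : ρ} {a : ρ → ℤ} (h1 : ∀ x ∈ W, mono x a = 1)
    (h2 : ∀ l ∉ insert i I, a l = 0) (h3 : 0 < a i) (hi : i ∉ I) :
    IsAlgebraic (adjoin ℂ ((fun p => Ideal.Quotient.mk (vid W) (X p)) '' (I : Set ρ)))
      (Ideal.Quotient.mk (vid W) (X i)) := by
  have hpr := hW.prime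
  let q : MvPolynomial ρ ℂ →+* MvPolynomial ρ ℂ ⧸ vid W := Ideal.Quotient.mk (vid W)
  let K := adjoin ℂ ((fun p => Ideal.Quotient.mk (vid W) (X p)) '' (I : Set ρ))
  have hmem : ∀ b : ρ → ℤ, q (∏ l ∈ I, X l ^ (b l).toNat) ∈ K := by
    intro b
    rw [map_prod]
    refine Subalgebra.prod_mem _ fun l hl => ?_
    rw [map_pow]
    have h4 : q (X l) ∈ K := subset_adjoin ⟨l, hl, rfl⟩
    exact Subalgebra.pow_mem _ h4 _
  have hne : ∀ b : ρ → ℤ, q (∏ l ∈ I, X l ^ (b l).toNat) ≠ 0 := by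
    intro b h
    obtain ⟨x, hx⟩ := hW.1
    have h4 := (Ideal.Quotient.eq_zero_iff_mem.mp h) x hx
    rw [map_prod] at h4
    refine Finset.prod_ne_zero_iff.mpr (fun l _ => ?_) h4
    rw [map_pow, eval_X]
    exact pow_ne_zero _ (hW0 x hx l)
  have hpos : posP a = X i ^ (a i).toNat * ∏ l ∈ I, X l ^ (a l).toNat := by
    have h4 : posP a = ∏ l ∈ insert i I, X l ^ (a l).toNat := by
      unfold posP
      refine (Finset.prod_subset (Finset.subset_univ _) fun l _ hl => ?_).symm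
      rw [h2 l hl, Int.toNat_zero, pow_zero]
    rw [h4, Finset.prod_insert hi]
  have hneg : posP (-a) = ∏ l ∈ I, X l ^ ((-a) l).toNat := by
    unfold posP
    refine (Finset.prod_subset (Finset.subset_univ _) fun l _ hl => ?_).symm
    by_cases hli : l = i
    · subst hli
      have : ((-a) l).toNat = 0 := by
        rw [Pi.neg_apply]
        omega
      rw [this, pow_zero]
    · have : a l = 0 := h2 l fun h => hl ((Finset.mem_insert.mp h).resolve_left hli)
      rw [Pi.neg_apply, this]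
      simp
  have heq : q (X i) ^ (a i).toNat * q (∏ l ∈ I, X l ^ (a l).toNat) = q (∏ l ∈ I, X l ^ ((-a) l).toNat) := by
    rw [← map_pow, ← map_mul, ← hpos, ← hneg]
    rw [Ideal.Quotient.eq, mem_vid]
    intro x hx
    rw [map_sub, eval_posP (hW0 x hx), h1 x hx, one_mul, sub_self]
  have hm : (a i).toNat ≠ 0 := by omega
  refine ⟨Polynomial.C ⟨_, hmem a⟩ * Polynomial.X ^ (a i).toNat - Polynomial.C ⟨_, hmem (-a)⟩, fun h => ?_, ?_⟩
  · have h4 := congrArg (fun p => Polynomial.coeff p (a i).toNat) h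
    simp only [Polynomial.coeff_sub, Polynomial.coeff_C_mul_X_pow, if_pos, Polynomial.coeff_C, if_neg hm, sub_zero,
      Polynomial.coeff_zero] at h4
    exact hne a (congrArg Subtype.val h4)
  · rw [map_sub, map_mul, Polynomial.aeval_C, Polynomial.aeval_C, map_pow, Polynomial.aeval_X]
    have h4 : q (∏ l ∈ I, X l ^ (a l).toNat) * q (X i) ^ (a i).toNat - q (∏ l ∈ I, X l ^ ((-a) l).toNat) = 0 := by
      rw [mul_comm, heq, sub_self]
    exact h4

/-- the projection to the coordinates of `I` does not change the dimension -/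
theorem le_trdeg_glue {ρ σ ι : Type} [Fintype ρ] [DecidableEq ρ] {W : Set (ρ → ℂ)} (hW : Irr W)
    (hW0 : ∀ x ∈ W, ∀ i, x i ≠ 0) {I : Finset ρ}
    (hI2 : ∀ i ∉ I, ∃ a : ρ → ℤ, (∀ x ∈ W, mono x a = 1) ∧ (∀ l ∉ insert i I, a l = 0) ∧ a i ≠ 0) (δ : ι → ℂ)
    (e : σ ≃ I ⊕ ι) : trdeg ℂ (MvPolynomial ρ ℂ ⧸ vid W) ≤
      trdeg ℂ (MvPolynomial σ ℂ ⧸ vid ((fun x s => Sum.elim (fun i : I => x i) δ (e s)) '' W)) := by
  have hpr := hW.prime
  let W' : Set (σ → ℂ) := (fun (x : ρ → ℂ) s => Sum.elim (fun i : I => x i) δ (e s)) '' W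
  obtain ⟨β, hβ, loc, h1, h2, h3⟩ := exists_coords (vid W) (I : Set ρ) fun i => by
    by_cases hi : i ∈ I
    · have h4 : Ideal.Quotient.mk (vid W) (X i) ∈
          adjoin ℂ ((fun p => Ideal.Quotient.mk (vid W) (X p)) '' (I : Set ρ)) := subset_adjoin ⟨i, hi, rfl⟩
      exact isAlgebraic_algebraMap (⟨_, h4⟩ : adjoin ℂ ((fun p => Ideal.Quotient.mk (vid W) (X p)) '' (I : Set ρ)))
    · obtain ⟨a, h5, h6, h7⟩ := hI2 i hi
      rcases lt_or_gt_of_ne h7 with h8 | h8
      · refine isAlgebraic_coord (a := -a) hW hW0 (fun x hx => ?_) (fun l hl => ?_) ?_ hi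
        · have h9 := mono_smul (x := x) (-1) a
          rw [neg_one_smul, h5 x hx, one_zpow] at h9
          exact h9
        · rw [Pi.neg_apply, h6 l hl, neg_zero]
        · rw [Pi.neg_apply]
          omega
      · exact isAlgebraic_coord hW hW0 h5 h6 h8 hi
  have h4 : AlgebraicIndependent ℂ fun b => Ideal.Quotient.mk (vid W') (X (e.symm (Sum.inl ⟨loc b, h1 b⟩))) := by
    rw [indep_iff W' fun b => e.symm (Sum.inl ⟨loc b, h1 b⟩)]
    intro F hF
    refine (indep_iff W loc).mp h3 F fun x hx => ?_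
    have h5 := hF _ ⟨x, hx, rfl⟩
    have h6 : (fun s => Sum.elim (fun i : I => x i) δ (e s)) ∘ (fun b => e.symm (Sum.inl ⟨loc b, h1 b⟩)) = x ∘ loc := by
      funext b
      simp
    rwa [h6] at h5
  rw [← h2, ← Cardinal.mk_fintype]
  exact h4.cardinalMk_le_trdeg

end Pool.Agent.Q280.ZU
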