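import Mathlib

/-!
# Functions on products of sets which belong separately to classes of functions
-/

set_option autoImplicit false

namespace Pool.Agent.Q280.ZU

variable {κ : Type} {V : κ → Type} [Fintype κ] [DecidableEq κ]

/-- two functions which are not zero have a common point where both are not zero -/
theorem exists_common (O : ∀ j, Set (V j → ℂ))
    (hO : ∀ j, ∀ f ∈ O j, ∀ g ∈ O j, (∃ v, f v ≠ 0) → (∃ v, g v ≠ 0) → ∃ v, f v ≠ 0 ∧ g v ≠ 0)
    (F G : (∀ j, V j) → ℂ) (hF : ∀ y j, (fun v => F (Function.update y j v)) ∈ O j)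
    (hG : ∀ y j, (fun v => G (Function.update y j v)) ∈ O j) (y z : ∀ j, V j) (hy : F y ≠ 0) (hz : G z ≠ 0) :
    ∃ u, F u ≠ 0 ∧ G u ≠ 0 := by
  have h : ∀ J : Finset κ, ∃ y z : ∀ j, V j, F y ≠ 0 ∧ G z ≠ 0 ∧ ∀ j ∈ J, y j = z j := by
    intro J
    induction J using Finset.induction_on with
    | empty => exact ⟨y, z, hy, hz, by simp⟩
    | insert j J _ ih =>
      obtain ⟨y, z, h1, h2, h3⟩ := ih
      obtain ⟨v, h4, h5⟩ := hO j _ (hF y j) _ (hG z j) ⟨y j, by rwa [Function.update_eq_self]⟩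
        ⟨z j, by rwa [Function.update_eq_self]⟩
      refine ⟨Function.update y j v, Function.update z j v, h4, h5, fun l hl => ?_⟩
      by_cases hlj : l = j
      · subst hlj
        simp
      · rw [Function.update_of_ne hlj, Function.update_of_ne hlj]
        exact h3 l ((Finset.mem_insert.mp hl).resolve_left hlj)
  obtain ⟨y, z, h1, h2, h3⟩ := h Finset.univ
  have h4 : y = z := funext fun j => h3 j (Finset.mem_univ _)
  exact ⟨y, h1, h4 ▸ h2⟩

/-- a function which is not zero is not zero at some point with coordinates in dense sets -/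
theorem exists_mem (O : ∀ j, Set (V j → ℂ)) (U : ∀ j, Set (V j))
    (hO : ∀ j, ∀ f ∈ O j, (∃ v, f v ≠ 0) → ∃ v ∈ U j, f v ≠ 0)
    (F : (∀ j, V j) → ℂ) (hF : ∀ y j, (fun v => F (Function.update y j v)) ∈ O j) (y : ∀ j, V j) (hy : F y ≠ 0) :
    ∃ u, (∀ j, u j ∈ U j) ∧ F u ≠ 0 := by
  have h : ∀ J : Finset κ, ∃ y : ∀ j, V j, F y ≠ 0 ∧ ∀ j ∈ J, y j ∈ U j := by
    intro J
    induction J using Finset.induction_on with
    | empty => exact ⟨y, hy, by simp⟩
    | insert j J _ ih =>
      obtain ⟨y, h1, h3⟩ := ih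
      obtain ⟨v, h4, h5⟩ := hO j _ (hF y j) ⟨y j, by rwa [Function.update_eq_self]⟩
      refine ⟨Function.update y j v, h5, fun l hl => ?_⟩
      by_cases hlj : l = j
      · subst hlj
        rwa [Function.update_self]
      · rw [Function.update_of_ne hlj]
        exact h3 l ((Finset.mem_insert.mp hl).resolve_left hlj)
  obtain ⟨y, h1, h3⟩ := h Finset.univ
  exact ⟨y, fun j => h3 j (Finset.mem_univ _), h1⟩

end Pool.Agent.Q280.ZU
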